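import Mathlib
import Pool.Agent.Helper472.Lat_CST2

/-!
# Compact matrix groups in an abstract finite-dimensional star algebra: basic facts
-/

open Filter Topology

namespace Pool.Agent.W544.EG

set_option linter.unusedSectionVars false


variable {𝔸 : Type} [NormedRing 𝔸] [NormedAlgebra ℝ 𝔸] [FiniteDimensional ℝ 𝔸] [StarRing 𝔸]
  [StarModule ℝ 𝔸] [ContinuousStar 𝔸]

/-- `G` is a closed group of unitary elements, `L` its Lie algebra -/
structure IsG (G : Set 𝔸) (L : Submodule ℝ 𝔸) : Prop where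
  one : (1 : 𝔸) ∈ G
  mul : ∀ x ∈ G, ∀ y ∈ G, x * y ∈ G
  st : ∀ x ∈ G, star x ∈ G
  sm : ∀ x ∈ G, star x * x = 1
  ms : ∀ x ∈ G, x * star x = 1
  isom : ∀ x ∈ G, ∀ a, ‖x * a‖ = ‖a‖
  isom' : ∀ x ∈ G, ∀ a, ‖a * x‖ = ‖a‖
  closed : IsClosed G
  lie : ∀ X, X ∈ L ↔ ∀ t : ℝ, NormedSpace.exp (t • X) ∈ G

lemma exp_add' {X Y : 𝔸} (h : Commute X Y) : NormedSpace.exp (X + Y) = NormedSpace.exp X * NormedSpace.exp Y := by
  haveI : CompleteSpace 𝔸 := FiniteDimensional.complete ℝ 𝔸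
  letI : NormedAlgebra ℚ 𝔸 := NormedAlgebra.restrictScalars ℚ ℝ 𝔸
  exact NormedSpace.exp_add_of_commute h

lemma exp_zero' : NormedSpace.exp (0 : 𝔸) = 1 := by
  haveI : CompleteSpace 𝔸 := FiniteDimensional.complete ℝ 𝔸
  letI : NormedAlgebra ℚ 𝔸 := NormedAlgebra.restrictScalars ℚ ℝ 𝔸
  exact NormedSpace.exp_zero

lemma exp_cont : Continuous (NormedSpace.exp : 𝔸 → 𝔸) := by
  haveI : CompleteSpace 𝔸 := FiniteDimensional.complete ℝ 𝔸
  letI : NormedAlgebra ℚ 𝔸 := NormedAlgebra.restrictScalars ℚ ℝ 𝔸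
  exact NormedSpace.exp_continuous

lemma hasDerivAt_exp_smul (X : 𝔸) (t : ℝ) :
    HasDerivAt (fun u : ℝ => NormedSpace.exp (u • X)) (NormedSpace.exp (t • X) * X) t := by
  haveI : CompleteSpace 𝔸 := FiniteDimensional.complete ℝ 𝔸
  exact hasDerivAt_exp_smul_const (𝕂 := ℝ) X t

lemma exp_strict : HasStrictFDerivAt (NormedSpace.exp : 𝔸 → 𝔸) (ContinuousLinearMap.id ℝ 𝔸) 0 := by
  haveI : CompleteSpace 𝔸 := FiniteDimensional.complete ℝ 𝔸
  exact hasStrictFDerivAt_exp_zero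

lemma exp_commute {X Y : 𝔸} (h : Commute X Y) : Commute (NormedSpace.exp X) Y := by
  haveI : CompleteSpace 𝔸 := FiniteDimensional.complete ℝ 𝔸
  letI : NormedAlgebra ℚ 𝔸 := NormedAlgebra.restrictScalars ℚ ℝ 𝔸
  exact h.exp_left

lemma exp_neg_mul (X : 𝔸) : NormedSpace.exp (-X) * NormedSpace.exp X = 1 := by
  rw [← exp_add' ((Commute.refl X).neg_left), neg_add_cancel, exp_zero']

lemma exp_mul_neg (X : 𝔸) : NormedSpace.exp X * NormedSpace.exp (-X) = 1 := by
  rw [← exp_add' ((Commute.refl X).neg_right), add_neg_cancel, exp_zero']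

lemma exp_conj (g g' X : 𝔸) (h : g' * g = 1) (h' : g * g' = 1) :
    NormedSpace.exp (g * X * g') = g * NormedSpace.exp X * g' := by
  haveI : CompleteSpace 𝔸 := FiniteDimensional.complete ℝ 𝔸
  letI : NormedAlgebra ℚ 𝔸 := NormedAlgebra.restrictScalars ℚ ℝ 𝔸
  exact NormedSpace.exp_units_conj (⟨g, g', h', h⟩ : 𝔸ˣ) X

namespace IsG

variable {G : Set 𝔸} {L : Submodule ℝ 𝔸} (hG : IsG G L)
include hG

lemma exp_mem {X : 𝔸} (hX : X ∈ L) : NormedSpace.exp X ∈ G := by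
  have := (hG.lie X).1 hX 1
  simpa using this

lemma conj_mem {g X : 𝔸} (hg : g ∈ G) (hX : X ∈ L) : g * X * Star.star g ∈ L := by
  rw [hG.lie]
  intro t
  have : t • (g * X * Star.star g) = g * (t • X) * Star.star g := by
    rw [mul_smul_comm, smul_mul_assoc]
  rw [this, exp_conj _ _ _ (hG.sm g hg) (hG.ms g hg)]
  exact hG.mul _ (hG.mul _ hg _ ((hG.lie X).1 hX t)) _ (hG.st _ hg)

lemma star_eq {g h : 𝔸} (hg : g ∈ G) (h1 : h * g = 1) : Star.star g = h := by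
  calc Star.star g = (h * g) * Star.star g := by rw [h1, one_mul]
    _ = h := by rw [mul_assoc, hG.ms g hg, mul_one]

lemma star_exp {X : 𝔸} (hX : X ∈ L) : Star.star (NormedSpace.exp X) = NormedSpace.exp (-X) :=
  hG.star_eq (hG.exp_mem hX) (exp_neg_mul X)

lemma skew {X : 𝔸} (hX : X ∈ L) : Star.star X = -X := by
  haveI : CompleteSpace 𝔸 := FiniteDimensional.complete ℝ 𝔸
  have h1 := hasDerivAt_exp_smul X 0
  rw [zero_smul, exp_zero', one_mul] at h1
  have h2 : HasDerivAt (fun t : ℝ => Star.star (NormedSpace.exp (t • X))) (Star.star X) 0 :=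
    ((starL' ℝ : 𝔸 ≃L[ℝ] 𝔸) : 𝔸 →L[ℝ] 𝔸).hasFDerivAt.comp_hasDerivAt (0 : ℝ) h1
  have h3 : HasDerivAt (fun t : ℝ => NormedSpace.exp (t • (-X))) (-X) 0 := by
    have := hasDerivAt_exp_smul (-X) 0
    rwa [zero_smul, exp_zero', one_mul] at this
  have h4 : (fun t : ℝ => Star.star (NormedSpace.exp (t • X))) = fun t : ℝ => NormedSpace.exp (t • (-X)) := by
    funext t
    rw [hG.star_exp (L.smul_mem t hX), smul_neg]
  rw [h4] at h2
  exact h2.unique h3

lemma norm_conj {g : 𝔸} (hg : g ∈ G) (X : 𝔸) : ‖g * X * Star.star g‖ = ‖X‖ := by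
  rw [hG.isom' _ (hG.st _ hg), hG.isom _ hg]

lemma norm_mul_sub_one {g h : 𝔸} (hh : h ∈ G) : ‖g * h - 1‖ ≤ ‖g - 1‖ + ‖h - 1‖ := by
  have e : g * h - 1 = (g - 1) * h + (h - 1) := by noncomm_ring
  rw [e]
  refine (norm_add_le _ _).trans ?_
  rw [hG.isom' _ hh]

lemma norm_star_sub_one {g : 𝔸} (hg : g ∈ G) : ‖Star.star g - 1‖ = ‖g - 1‖ := by
  rw [← hG.isom' g hg (Star.star g - 1), sub_mul, hG.sm g hg, one_mul, norm_sub_rev]

lemma norm_conj_sub_one {g h : 𝔸} (hg : g ∈ G) : ‖g * h * Star.star g - 1‖ = ‖h - 1‖ := by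
  rw [← hG.norm_conj hg (h - 1), mul_sub, sub_mul, mul_one, hG.ms g hg]

lemma norm_exp_sub_one {X : 𝔸} (hX : X ∈ L) : ‖NormedSpace.exp X - 1‖ ≤ ‖X‖ := by
  have h1 : ∀ t ∈ Set.Icc (0 : ℝ) 1, HasDerivWithinAt (fun u : ℝ => NormedSpace.exp (u • X)) (NormedSpace.exp (t • X) * X)
      (Set.Icc 0 1) t := fun t _ => (hasDerivAt_exp_smul X t).hasDerivWithinAt
  have h2 := norm_image_sub_le_of_norm_deriv_le_segment' h1 (C := ‖X‖) (fun t _ => by
    rw [hG.isom _ ((hG.lie X).1 hX t)]) 1 (by simp)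
  simpa [exp_zero'] using h2

lemma conj_add (g X Y : 𝔸) : g * (X + Y) * Star.star g = g * X * Star.star g + g * Y * Star.star g := by
  rw [mul_add, add_mul]

end IsG

/-- invariance of a subspace under conjugation by `G` -/
def Inv (G : Set 𝔸) (W : Submodule ℝ 𝔸) : Prop := ∀ g ∈ G, ∀ X ∈ W, g * X * star g ∈ W

/-- two elements act in the same way on `W` -/
def Eqv (W : Submodule ℝ 𝔸) (g h : 𝔸) : Prop := ∀ Y ∈ W, g * Y * star g = h * Y * star h

namespace Eqv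

variable {W : Submodule ℝ 𝔸}

lemma refl (g : 𝔸) : Eqv W g g := fun _ _ => rfl

lemma symm {g h : 𝔸} (h1 : Eqv W g h) : Eqv W h g := fun Y hY => (h1 Y hY).symm

lemma trans {g h k : 𝔸} (h1 : Eqv W g h) (h2 : Eqv W h k) : Eqv W g k :=
  fun Y hY => (h1 Y hY).trans (h2 Y hY)

lemma mul {G : Set 𝔸} (hW : Inv G W) {g h g' h' : 𝔸} (hh' : h' ∈ G) (h1 : Eqv W g h)
    (h2 : Eqv W g' h') : Eqv W (g * g') (h * h') := by
  intro Y hY
  have e1 : g * g' * Y * star (g * g') = g * (g' * Y * star g') * star g := by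
    rw [star_mul]; noncomm_ring
  have e2 : h * h' * Y * star (h * h') = h * (h' * Y * star h') * star h := by
    rw [star_mul]; noncomm_ring
  rw [e1, e2, h2 Y hY, h1 _ (hW _ hh' Y hY)]

lemma star {G : Set 𝔸} {L : Submodule ℝ 𝔸} (hG : IsG G L) (hW : Inv G W) {g h : 𝔸}
    (hg : g ∈ G) (hh : h ∈ G) (h1 : Eqv W g h) : Eqv W (Star.star g) (Star.star h) := by
  intro Y hY
  rw [star_star, star_star]
  have hZ : Star.star h * Y * h ∈ W := by
    have := hW _ (hG.st _ hh) Y hY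
    rwa [star_star] at this
  have h2 := h1 _ hZ
  have e1 : h * (Star.star h * Y * h) * Star.star h = Y := by
    have := hG.ms h hh
    calc h * (Star.star h * Y * h) * Star.star h = (h * Star.star h) * Y * (h * Star.star h) := by
          noncomm_ring
      _ = Y := by rw [this, one_mul, mul_one]
  rw [e1] at h2
  have e2 : Star.star g * (g * (Star.star h * Y * h) * Star.star g) * g = Star.star h * Y * h := by
    have := hG.sm g hg
    calc Star.star g * (g * (Star.star h * Y * h) * Star.star g) * g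
        = (Star.star g * g) * (Star.star h * Y * h) * (Star.star g * g) := by noncomm_ring
      _ = _ := by rw [this, one_mul, mul_one]
  rw [h2] at e2
  exact e2

end Eqv

end Pool.Agent.W544.EG
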