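import Mathlib
import Pool.Agent.W544.EG.Base

/-!
# Invariant subspaces, equivariant projections, local logarithm, the covering lemma
-/

open Filter Topology

namespace Pool.Agent.W544.EG

set_option linter.unusedSectionVars false
set_option linter.style.haveILetI false


variable {𝔸 : Type} [NormedRing 𝔸] [NormedAlgebra ℝ 𝔸] [FiniteDimensional ℝ 𝔸] [StarRing 𝔸]
  [StarModule ℝ 𝔸] [ContinuousStar 𝔸]
variable {G : Set 𝔸} {L : Submodule ℝ 𝔸}

/-- the bracket of an element of the Lie algebra and an element of an invariant subspace -/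
lemma bracket_mem (hG : IsG G L) {W : Submodule ℝ 𝔸} (hW : Inv G W) {X Y : 𝔸} (hX : X ∈ L)
    (hY : Y ∈ W) : X * Y - Y * X ∈ W := by
  have h1 := hasDerivAt_exp_smul X 0
  have h2 := hasDerivAt_exp_smul (-X) 0
  rw [zero_smul, exp_zero', one_mul] at h1 h2
  have h3 : HasDerivAt (fun t : ℝ => NormedSpace.exp (t • X) * Y * NormedSpace.exp (t • (-X))) (X * Y - Y * X) 0 := by
    have h4 := (h1.mul_const Y).mul h2
    simp only [zero_smul, exp_zero', one_mul, mul_one] at h4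
    refine h4.congr_deriv ?_
    rw [mul_neg, ← sub_eq_add_neg]
  have h5 : ∀ t : ℝ, NormedSpace.exp (t • X) * Y * NormedSpace.exp (t • (-X)) ∈ W := by
    intro t
    have h6 : t • X ∈ L := L.smul_mem t hX
    have h7 := hW _ (hG.exp_mem h6) Y hY
    rwa [hG.star_exp h6, ← smul_neg] at h7
  haveI : CompleteSpace W := FiniteDimensional.complete ℝ W
  have hcl : IsClosed (W : Set 𝔸) := W.closed_of_finiteDimensional
  rw [hasDerivAt_iff_tendsto_slope] at h3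
  have h8 : ∀ᶠ t in 𝓝[≠] (0:ℝ), slope (fun t : ℝ => NormedSpace.exp (t • X) * Y * NormedSpace.exp (t • (-X))) 0 t ∈ (W : Set 𝔸) := by
    refine Eventually.of_forall fun t => ?_
    rw [slope_def_module]
    exact W.smul_mem _ (W.sub_mem (h5 t) (h5 0))
  exact hcl.mem_of_tendsto h3 h8

lemma commute_of_disjoint (hG : IsG G L) {W W' : Submodule ℝ 𝔸} (hW : Inv G W) (hW' : Inv G W')
    (hL : W ≤ L) (hL' : W' ≤ L) (hd : W ⊓ W' = ⊥) {X Y : 𝔸} (hX : X ∈ W) (hY : Y ∈ W') :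
    Commute X Y := by
  have h1 : X * Y - Y * X ∈ W' := bracket_mem hG hW' (hL hX) hY
  have h2 : Y * X - X * Y ∈ W := bracket_mem hG hW (hL' hY) hX
  have h3 : X * Y - Y * X ∈ W := by
    have := W.neg_mem h2
    rwa [neg_sub] at this
  have h4 : X * Y - Y * X ∈ W ⊓ W' := ⟨h3, h1⟩
  rw [hd, Submodule.mem_bot] at h4
  exact sub_eq_zero.1 h4

/-- an equivariant projection to `W` -/
structure IsP (G : Set 𝔸) (L W : Submodule ℝ 𝔸) (P : 𝔸 →L[ℝ] 𝔸) : Prop where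
  mem : ∀ X, P X ∈ W
  id : ∀ X ∈ W, P X = X
  equi : ∀ g ∈ G, ∀ X ∈ L, P (g * X * star g) = g * P X * star g

/-- complete reducibility of the adjoint action -/
def CR (G : Set 𝔸) (L : Submodule ℝ 𝔸) : Prop :=
  ∀ W : Submodule ℝ 𝔸, W ≤ L → Inv G W → ∃ P : 𝔸 →L[ℝ] 𝔸, IsP G L W P

/-- the kernel of the projection inside the Lie algebra -/
noncomputable def Ker (L : Submodule ℝ 𝔸) (P : 𝔸 →L[ℝ] 𝔸) : Submodule ℝ 𝔸 := L ⊓ (P : 𝔸 →ₗ[ℝ] 𝔸).ker

lemma mem_Ker {P : 𝔸 →L[ℝ] 𝔸} {X : 𝔸} : X ∈ Ker L P ↔ X ∈ L ∧ P X = 0 := by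
  unfold Ker
  rw [Submodule.mem_inf, LinearMap.mem_ker]
  rfl

namespace IsP

variable {W : Submodule ℝ 𝔸} {P : 𝔸 →L[ℝ] 𝔸} (hP : IsP G L W P)
include hP

lemma sub_mem_Ker (hW : W ≤ L) {X : 𝔸} (hX : X ∈ L) : X - P X ∈ Ker L P := by
  rw [mem_Ker]
  refine ⟨L.sub_mem hX (hW (hP.mem X)), ?_⟩
  rw [map_sub, hP.id _ (hP.mem X), sub_self]

lemma inv_Ker (hG : IsG G L) : Inv G (Ker L P) := by
  intro g hg X hX
  rw [mem_Ker] at hX ⊢
  refine ⟨hG.conj_mem hg hX.1, ?_⟩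
  rw [hP.equi g hg X hX.1, hX.2]
  simp

lemma inf_Ker : W ⊓ Ker L P = ⊥ := by
  rw [eq_bot_iff]
  rintro X ⟨h1, h2⟩
  rw [SetLike.mem_coe, mem_Ker] at h2
  rw [Submodule.mem_bot, ← hP.id X h1, h2.2]

lemma commute (hG : IsG G L) (hW : W ≤ L) (hI : Inv G W) {X Y : 𝔸} (hX : X ∈ Ker L P) (hY : Y ∈ W) :
    Commute X Y := by
  refine (commute_of_disjoint hG hI (hP.inv_Ker hG) hW ?_ hP.inf_Ker hY hX).symm
  exact inf_le_left

lemma exp_eq (hG : IsG G L) (hW : W ≤ L) (hI : Inv G W) {X : 𝔸} (hX : X ∈ L) :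
    NormedSpace.exp X = NormedSpace.exp (P X) * NormedSpace.exp (X - P X) := by
  rw [← exp_add' (hP.commute hG hW hI (hP.sub_mem_Ker hW hX) (hP.mem X)).symm, add_sub_cancel]

/-- `exp X` acts on `W` as `exp (P X)` -/
lemma eqv_exp (hG : IsG G L) (hW : W ≤ L) (hI : Inv G W) {X : 𝔸} (hX : X ∈ L) :
    Eqv W (NormedSpace.exp X) (NormedSpace.exp (P X)) := by
  intro Y hY
  have hK := hP.sub_mem_Ker hW hX
  have hc : Commute (NormedSpace.exp (X - P X)) Y := exp_commute (hP.commute hG hW hI hK hY)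
  have hm : NormedSpace.exp (X - P X) ∈ G := hG.exp_mem ((mem_Ker.1 hK).1)
  rw [hP.exp_eq hG hW hI hX, star_mul]
  calc NormedSpace.exp (P X) * NormedSpace.exp (X - P X) * Y * (star (NormedSpace.exp (X - P X)) * star (NormedSpace.exp (P X)))
      = NormedSpace.exp (P X) * (NormedSpace.exp (X - P X) * Y) * star (NormedSpace.exp (X - P X)) * star (NormedSpace.exp (P X)) := by noncomm_ring
    _ = NormedSpace.exp (P X) * (Y * NormedSpace.exp (X - P X)) * star (NormedSpace.exp (X - P X)) * star (NormedSpace.exp (P X)) := by rw [hc.eq]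
    _ = NormedSpace.exp (P X) * Y * (NormedSpace.exp (X - P X) * star (NormedSpace.exp (X - P X))) * star (NormedSpace.exp (P X)) := by noncomm_ring
    _ = _ := by rw [hG.ms _ hm, mul_one]

lemma eqv_one_of_Ker (hG : IsG G L) (hW : W ≤ L) (hI : Inv G W) {X : 𝔸} (hX : X ∈ Ker L P) :
    Eqv W (NormedSpace.exp X) 1 := by
  have h := hP.eqv_exp hG hW hI (mem_Ker.1 hX).1
  rw [(mem_Ker.1 hX).2, exp_zero'] at h
  exact h

end IsP

/-! ### local logarithm -/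

/-- There is a local logarithm. -/
lemma exists_log : ∃ lg : 𝔸 → 𝔸, HasStrictFDerivAt lg (ContinuousLinearMap.id ℝ 𝔸) 1 ∧ lg 1 = 0 ∧
    (∀ᶠ u in 𝓝 (1 : 𝔸), NormedSpace.exp (lg u) = u) ∧
    ∀ (G : Set 𝔸) (L : Submodule ℝ 𝔸), IsG G L → ∀ᶠ u in 𝓝 (1 : 𝔸), u ∈ G → lg u ∈ L := by
  haveI : CompleteSpace 𝔸 := FiniteDimensional.complete ℝ 𝔸
  have hs : HasStrictFDerivAt (NormedSpace.exp : 𝔸 → 𝔸) ((ContinuousLinearEquiv.refl ℝ 𝔸 : 𝔸 ≃L[ℝ] 𝔸) : 𝔸 →L[ℝ] 𝔸) 0 :=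
    exp_strict
  refine ⟨hs.localInverse _ _ _, ?_, ?_, ?_, ?_⟩
  · have := hs.to_localInverse
    rw [exp_zero'] at this
    exact this
  · have := hs.localInverse_apply_image
    rwa [exp_zero'] at this
  · have := hs.eventually_right_inverse
    rwa [exp_zero'] at this
  · intro G L hG
    have h1 := hs.eventually_left_inverse
    obtain ⟨O, hO, h2⟩ := Pool.LatH472.CST2_gen G hG.closed hG.one hG.mul
      (fun a ha b hb => by rw [← hG.star_eq ha hb]; exact hG.st a ha) L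
      (fun X hX t => (hG.lie X).1 hX t) (fun X hX => (hG.lie X).2 hX) _ h1
    filter_upwards [hO] with u hu huG
    obtain ⟨X, hX, hXV, rfl⟩ := h2 u huG hu
    have h3 : hs.localInverse _ _ _ (NormedSpace.exp X) = X := hXV
    rw [h3]
    exact hX

/-! ### covering lemma -/

/-- Covering lemma: if `F(p₀,0)=1` and the partial derivative in the second variable maps onto `W`,
then for `p` near `p₀` the values `F(p,σ)`, `σ` small, lying in `G`, cover (mod what acts trivially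
on `W`) a uniform neighbourhood of `1`. -/
lemma cover (hG : IsG G L) {W : Submodule ℝ 𝔸} {P : 𝔸 →L[ℝ] 𝔸} (hP : IsP G L W P) (hW : W ≤ L)
    (hI : Inv G W) {E S : Type} [NormedAddCommGroup E] [NormedSpace ℝ E] [CompleteSpace E]
    [NormedAddCommGroup S] [NormedSpace ℝ S] [CompleteSpace S] (F : E × S → 𝔸) (F' : E × S →L[ℝ] 𝔸)
    (p₀ : E) (hF : HasStrictFDerivAt F F' (p₀, 0)) (h1 : F (p₀, 0) = 1)
    (hsurj : ∀ w ∈ W, ∃ σ : S, F' (0, σ) = w) {r : ℝ} (hr : 0 < r) :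
    ∃ δ > 0, ∀ᶠ p in 𝓝 p₀, (∀ σ : S, ‖σ‖ < r → F (p, σ) ∈ G) →
      ∀ v ∈ W, ‖v‖ < δ → ∃ σ : S, ‖σ‖ < r ∧ Eqv W (F (p, σ)) (NormedSpace.exp v) := by
  haveI : CompleteSpace 𝔸 := FiniteDimensional.complete ℝ 𝔸
  haveI : CompleteSpace W := FiniteDimensional.complete ℝ W
  obtain ⟨lg, hl1, hl0, hl2, hl3⟩ := exists_log (𝔸 := 𝔸)
  -- projection with values in `W`
  obtain ⟨Q, hQ⟩ : ∃ Q : 𝔸 →L[ℝ] W, ∀ X, (Q X : 𝔸) = P X :=
    ⟨P.codRestrict W hP.mem, fun X => rfl⟩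
  set Φ : E × S → E × W := fun x => (x.1, Q (lg (F x))) with hΦ
  have hlF : HasStrictFDerivAt (fun x => lg (F x)) ((ContinuousLinearMap.id ℝ 𝔸).comp F') (p₀, 0) := by
    have : HasStrictFDerivAt lg (ContinuousLinearMap.id ℝ 𝔸) (F (p₀, 0)) := by rw [h1]; exact hl1
    exact this.comp (p₀, 0) hF
  have hΦ' : HasStrictFDerivAt Φ ((ContinuousLinearMap.fst ℝ E S).prod (Q.comp F')) (p₀, 0) := by
    have h2 : HasStrictFDerivAt (fun x : E × S => Q (lg (F x))) (Q.comp ((ContinuousLinearMap.id ℝ 𝔸).comp F')) (p₀, 0) :=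
      Q.hasStrictFDerivAt.comp (p₀, 0) hlF
    exact hasStrictFDerivAt_fst.prodMk h2
  have hrange : (((ContinuousLinearMap.fst ℝ E S).prod (Q.comp F') : E × S →L[ℝ] E × W) : E × S →ₗ[ℝ] E × W).range = ⊤ := by
    rw [LinearMap.range_eq_top]
    rintro ⟨e, w⟩
    obtain ⟨σ, hσ⟩ := hsurj ((w : 𝔸) - P (F' (e, 0))) (W.sub_mem w.2 (hP.mem _))
    refine ⟨(e, σ), ?_⟩
    have h3 : (e, σ) = (e, (0 : S)) + ((0 : E), σ) := by simp
    refine Prod.ext rfl ?_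
    apply Subtype.ext
    show (Q (F' (e, σ)) : 𝔸) = w
    rw [hQ, h3, map_add, hσ, map_add, map_sub, hP.id _ (hP.mem _), hP.id _ w.2]
    abel
  have hmap := hΦ'.map_nhds_eq_of_surj hrange
  have hΦ0 : Φ (p₀, 0) = (p₀, 0) := by
    simp only [hΦ]
    rw [h1, hl0, map_zero]
  rw [hΦ0] at hmap
  -- good neighbourhood
  have hFc : Tendsto F (𝓝 (p₀, 0)) (𝓝 1) := by
    have := hF.continuousAt
    rw [ContinuousAt, h1] at this
    exact this
  have hgood : ∀ᶠ x : E × S in 𝓝 (p₀, 0), ‖x.2‖ < r ∧ NormedSpace.exp (lg (F x)) = F x ∧ (F x ∈ G → lg (F x) ∈ L) := by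
    have e1 : ∀ᶠ x : E × S in 𝓝 (p₀, 0), ‖x.2‖ < r := by
      have : Tendsto (fun x : E × S => ‖x.2‖) (𝓝 (p₀, 0)) (𝓝 ‖(0 : S)‖) :=
        (continuous_snd.norm).tendsto _
      rw [norm_zero] at this
      exact this.eventually (gt_mem_nhds hr)
    filter_upwards [e1, hFc.eventually hl2, hFc.eventually (hl3 G L hG)] with x h4 h5 h6
    exact ⟨h4, h5, h6⟩
  have himg : Φ '' {x | ‖x.2‖ < r ∧ NormedSpace.exp (lg (F x)) = F x ∧ (F x ∈ G → lg (F x) ∈ L)} ∈ 𝓝 (p₀, (0 : W)) := by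
    rw [← hmap]
    exact image_mem_map hgood
  rw [nhds_prod_eq] at himg
  obtain ⟨s, hs, t, ht, hst⟩ := Filter.mem_prod_iff.1 himg
  obtain ⟨δ, hδ, hδt⟩ := Metric.mem_nhds_iff.1 ht
  refine ⟨δ, hδ, ?_⟩
  filter_upwards [hs] with p hp hall v hv hvδ
  have h7 : (p, (⟨v, hv⟩ : W)) ∈ s ×ˢ t := by
    refine ⟨hp, hδt ?_⟩
    rw [mem_ball_zero_iff]
    exact hvδ
  obtain ⟨⟨p', σ⟩, ⟨h8, h9, h10⟩, h11⟩ := hst h7
  have h12 : p' = p := congrArg Prod.fst h11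
  subst h12
  have h13 : Q (lg (F (p', σ))) = ⟨v, hv⟩ := congrArg Prod.snd h11
  have h14 : P (lg (F (p', σ))) = v := by
    rw [← hQ, h13]
  refine ⟨σ, h8, ?_⟩
  have h15 := hP.eqv_exp hG hW hI (h10 (hall σ h8))
  rw [h14, h9] at h15
  exact h15

end Pool.Agent.W544.EG
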