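import Mathlib
import Pool.Agent.W544.EG.Cov

/-!
# Generation, balls, words
-/

open Filter Topology

namespace Pool.Agent.W544.EG

set_option linter.unusedSectionVars false
set_option linter.style.haveILetI false


variable {𝔸 : Type} [NormedRing 𝔸] [NormedAlgebra ℝ 𝔸] [FiniteDimensional ℝ 𝔸] [StarRing 𝔸]
  [StarModule ℝ 𝔸] [ContinuousStar 𝔸]
variable {G : Set 𝔸} {L : Submodule ℝ 𝔸}

lemma near_one (hG : IsG G L) {δ : ℝ} (hδ : 0 < δ) :
    ∃ η > 0, ∀ u ∈ G, ‖u - 1‖ < η → ∃ X ∈ L, ‖X‖ < δ ∧ NormedSpace.exp X = u := by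
  obtain ⟨lg, hl1, hl0, hl2, hl3⟩ := exists_log (𝔸 := 𝔸)
  have h1 : Tendsto lg (𝓝 1) (𝓝 0) := by
    have := hl1.continuousAt
    rwa [ContinuousAt, hl0] at this
  have h2 : ∀ᶠ u in 𝓝 (1 : 𝔸), ‖lg u‖ < δ := by
    have := h1.norm
    rw [norm_zero] at this
    exact this.eventually (gt_mem_nhds hδ)
  obtain ⟨η, hη, h3⟩ := Metric.eventually_nhds_iff.1 (h2.and (hl2.and (hl3 G L hG)))
  refine ⟨η, hη, fun u hu hun => ?_⟩
  obtain ⟨h4, h5, h6⟩ := h3 (show dist u 1 < η by rwa [dist_eq_norm])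
  exact ⟨lg u, h6 hu, h4, h5⟩

lemma IsG.norm_le (hG : IsG G L) {x : 𝔸} (hx : x ∈ G) : ‖x‖ = ‖(1 : 𝔸)‖ := by
  have := hG.isom x hx 1
  rwa [mul_one] at this

lemma IsG.compact (hG : IsG G L) : IsCompact G := by
  haveI : ProperSpace 𝔸 := FiniteDimensional.proper ℝ 𝔸
  refine Metric.isCompact_of_isClosed_isBounded hG.closed ?_
  rw [isBounded_iff_forall_norm_le]
  exact ⟨‖(1 : 𝔸)‖, fun x hx => (hG.norm_le hx).le⟩

lemma IsG.list_prod_mem (hG : IsG G L) : ∀ l : List 𝔸, (∀ x ∈ l, x ∈ G) → l.prod ∈ G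
  | [], _ => by rw [List.prod_nil]; exact hG.one
  | a :: l, h => by
    rw [List.prod_cons]
    exact hG.mul _ (h a (by simp)) _ (hG.list_prod_mem l fun x hx => h x (by simp [hx]))

/-- every element is a product of boundedly many small exponentials -/
lemma generate (hG : IsG G L) (hc : IsPreconnected G) {δ : ℝ} (hδ : 0 < δ) :
    ∃ n : ℕ, ∀ g ∈ G, ∃ l : List 𝔸, l.length ≤ n ∧ (∀ X ∈ l, X ∈ L ∧ ‖X‖ < δ) ∧
      (l.map NormedSpace.exp).prod = g := by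
  obtain ⟨η, hη, h1⟩ := near_one hG hδ
  set R : Set 𝔸 := {x | ∃ l : List 𝔸, (∀ X ∈ l, X ∈ L ∧ ‖X‖ < δ) ∧ (l.map NormedSpace.exp).prod = x} with hR
  have hstep : ∀ (l : List 𝔸), (∀ X ∈ l, X ∈ L ∧ ‖X‖ < δ) → ∀ y ∈ G, ‖y - (l.map NormedSpace.exp).prod‖ < η →
      ∃ l' : List 𝔸, l'.length ≤ l.length + 1 ∧ (∀ X ∈ l', X ∈ L ∧ ‖X‖ < δ) ∧ (l'.map NormedSpace.exp).prod = y := by
    intro l hl y hy hd
    set x := (l.map NormedSpace.exp).prod with hx
    have hxG : x ∈ G := by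
      refine hG.list_prod_mem _ fun z hz => ?_
      obtain ⟨X, hX, rfl⟩ := List.mem_map.1 hz
      exact hG.exp_mem (hl X hX).1
    have h2 : ‖star x * y - 1‖ < η := by
      have : star x * y - 1 = star x * (y - x) := by
        rw [mul_sub, hG.sm x hxG]
      rw [this, hG.isom _ (hG.st _ hxG)]
      exact hd
    obtain ⟨X, hX, hXδ, hX2⟩ := h1 _ (hG.mul _ (hG.st _ hxG) _ hy) h2
    refine ⟨l ++ [X], by simp, ?_, ?_⟩
    · intro Y hY
      rcases List.mem_append.1 hY with h | h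
      · exact hl Y h
      · rw [List.mem_singleton.1 h]; exact ⟨hX, hXδ⟩
    · rw [List.map_append, List.prod_append, ← hx]
      simp only [List.map_cons, List.map_nil, List.prod_singleton]
      rw [hX2, ← mul_assoc, hG.ms x hxG, one_mul]
  have hGR : G ⊆ R := by
    have hopen : IsOpen (⋃ x ∈ R, Metric.ball x (η / 2)) :=
      isOpen_biUnion fun x _ => Metric.isOpen_ball
    have h1R : (1 : 𝔸) ∈ R := ⟨[], by simp, by simp⟩
    have hsub : G ⊆ ⋃ x ∈ R, Metric.ball x (η / 2) := by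
      refine hc.subset_of_closure_inter_subset hopen ⟨1, hG.one, ?_⟩ ?_
      · exact Set.mem_biUnion h1R (Metric.mem_ball_self (by positivity))
      · rintro y ⟨hy1, hy2⟩
        obtain ⟨z, hz1, hz2⟩ := Metric.mem_closure_iff.1 hy1 (η / 2) (by positivity)
        obtain ⟨x, hx, hzx⟩ := Set.mem_iUnion₂.1 hz1
        obtain ⟨l, hl, rfl⟩ := hx
        have h3 : ‖y - (l.map NormedSpace.exp).prod‖ < η := by
          rw [← dist_eq_norm]
          have := dist_triangle y z (l.map NormedSpace.exp).prod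
          rw [Metric.mem_ball] at hzx
          linarith
        obtain ⟨l', _, hl', hl''⟩ := hstep l hl y hy2 h3
        exact Set.mem_biUnion (show y ∈ R from ⟨l', hl', hl''⟩) (Metric.mem_ball_self (by positivity))
    intro y hy
    obtain ⟨x, ⟨l, hl, rfl⟩, hyx⟩ := Set.mem_iUnion₂.1 (hsub hy)
    rw [Metric.mem_ball, dist_eq_norm] at hyx
    obtain ⟨l', _, hl', hl''⟩ := hstep l hl y hy (by linarith)
    exact ⟨l', hl', hl''⟩
  obtain ⟨t, ht, htG⟩ := hG.compact.elim_nhds_subcover (fun x => Metric.ball x η)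
    (fun x _ => Metric.ball_mem_nhds x hη)
  have hch : ∀ x : 𝔸, ∃ l : List 𝔸, x ∈ t → (∀ X ∈ l, X ∈ L ∧ ‖X‖ < δ) ∧ (l.map NormedSpace.exp).prod = x := by
    intro x
    by_cases hx : x ∈ t
    · obtain ⟨l, hl, hl'⟩ := hGR (ht x hx)
      exact ⟨l, fun _ => ⟨hl, hl'⟩⟩
    · exact ⟨[], fun h => absurd h hx⟩
  choose ll hll using hch
  refine ⟨t.sup (fun x => (ll x).length) + 1, fun g hg => ?_⟩
  obtain ⟨x, hx, hgx⟩ := Set.mem_iUnion₂.1 (htG hg)
  rw [Metric.mem_ball, dist_eq_norm] at hgx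
  obtain ⟨h4, h5⟩ := hll x hx
  obtain ⟨l', h6, h7, h8⟩ := hstep (ll x) h4 g hg (by rw [h5]; exact hgx)
  refine ⟨l', h6.trans ?_, h7, h8⟩
  have := Finset.le_sup (f := fun x => (ll x).length) hx
  simpa using this

/-! ### length balls -/

/-- a length function on the Lie algebra -/
structure IsLen (L : Submodule ℝ 𝔸) (q : 𝔸 → ℝ) : Prop where
  nonneg : ∀ X ∈ L, 0 ≤ q X
  smul : ∀ (c : ℝ), ∀ X ∈ L, q (c • X) = |c| * q X

/-- products of exponentials of total length `≤ t` -/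
def BL (L : Submodule ℝ 𝔸) (q : 𝔸 → ℝ) (t : ℝ) : Set 𝔸 :=
  {x | ∃ l : List 𝔸, (∀ X ∈ l, X ∈ L) ∧ (l.map NormedSpace.exp).prod = x ∧ (l.map q).sum ≤ t}

variable {q : 𝔸 → ℝ}

lemma BL.one {t : ℝ} (ht : 0 ≤ t) : (1 : 𝔸) ∈ BL L q t := ⟨[], by simp, by simp, by simpa using ht⟩

lemma BL.mono {s t : ℝ} (h : s ≤ t) : BL L q s ⊆ BL L q t := by
  rintro x ⟨l, h1, h2, h3⟩
  exact ⟨l, h1, h2, h3.trans h⟩

lemma BL.mul {s t : ℝ} {x y : 𝔸} (hx : x ∈ BL L q s) (hy : y ∈ BL L q t) :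
    x * y ∈ BL L q (s + t) := by
  obtain ⟨l, h1, rfl, h3⟩ := hx
  obtain ⟨l', h1', rfl, h3'⟩ := hy
  refine ⟨l ++ l', ?_, by simp, ?_⟩
  · intro X hX
    rcases List.mem_append.1 hX with h | h
    · exact h1 X h
    · exact h1' X h
  · rw [List.map_append, List.sum_append]
    linarith

lemma BL.exp {t : ℝ} {X : 𝔸} (hX : X ∈ L) (h : q X ≤ t) : NormedSpace.exp X ∈ BL L q t :=
  ⟨[X], by simpa using hX, by simp, by simpa using h⟩

lemma BL.mem (hG : IsG G L) {t : ℝ} {x : 𝔸} (hx : x ∈ BL L q t) : x ∈ G := by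
  obtain ⟨l, h1, rfl, _⟩ := hx
  refine hG.list_prod_mem _ fun z hz => ?_
  obtain ⟨X, hX, rfl⟩ := List.mem_map.1 hz
  exact hG.exp_mem (h1 X hX)

lemma BL.star (hG : IsG G L) (hq : IsLen L q) {t : ℝ} {x : 𝔸} (hx : x ∈ BL L q t) :
    Star.star x ∈ BL L q t := by
  obtain ⟨l, h1, rfl, h3⟩ := hx
  refine le_trans (BL.mono h3) (le_refl _) ?_
  clear h3
  induction l with
  | nil => 
    simp only [List.map_nil, List.prod_nil, List.sum_nil, star_one]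
    exact BL.one le_rfl
  | cons X l ih =>
    have hX := h1 X (by simp)
    simp only [List.map_cons, List.prod_cons, List.sum_cons, star_mul]
    rw [add_comm]
    refine BL.mul (ih fun Y hY => h1 Y (by simp [hY])) ?_
    rw [hG.star_exp hX]
    refine BL.exp (L.neg_mem hX) ?_
    have := hq.smul (-1) X hX
    rw [neg_one_smul] at this
    rw [this]
    simp

lemma BL.list_prod {t : ℝ} (ht : 0 ≤ t) : ∀ l : List 𝔸, (∀ x ∈ l, x ∈ BL L q t) →
    l.prod ∈ BL L q (l.length * t)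
  | [], _ => by
    rw [List.prod_nil]; exact BL.one (by simp)
  | a :: l, h => by
    rw [List.prod_cons, List.length_cons]
    have h1 := BL.mul (h a (by simp)) (BL.list_prod ht l fun x hx => h x (by simp [hx]))
    have e : ((l.length + 1 : ℕ) : ℝ) * t = t + l.length * t := by push_cast; ring
    rw [e]
    exact h1

/-! ### conjugation words -/

/-- products of `a z a⁻¹ b z⁻¹ b⁻¹` -/
def cw (l : List (𝔸 × 𝔸)) (z : 𝔸) : 𝔸 :=
  (l.map fun p => p.1 * z * star p.1 * (p.2 * star z * star p.2)).prod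

lemma cw_mem (hG : IsG G L) {l : List (𝔸 × 𝔸)} (hl : ∀ p ∈ l, p.1 ∈ G ∧ p.2 ∈ G) {z : 𝔸}
    (hz : z ∈ G) : cw l z ∈ G := by
  refine hG.list_prod_mem _ fun x hx => ?_
  obtain ⟨p, hp, rfl⟩ := List.mem_map.1 hx
  obtain ⟨h1, h2⟩ := hl p hp
  exact hG.mul _ (hG.mul _ (hG.mul _ h1 _ hz) _ (hG.st _ h1)) _
    (hG.mul _ (hG.mul _ h2 _ (hG.st _ hz)) _ (hG.st _ h2))

lemma cw_BL (hG : IsG G L) (hq : IsLen L q) {a b : ℝ} (ha : 0 ≤ a) (hb : 0 ≤ b)
    {l : List (𝔸 × 𝔸)} (hl : ∀ p ∈ l, p.1 ∈ BL L q a ∧ p.2 ∈ BL L q a) {z : 𝔸}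
    (hz : z ∈ BL L q b) : cw l z ∈ BL L q (l.length * (4 * a + 2 * b)) := by
  have h := BL.list_prod (L := L) (q := q) (t := 4 * a + 2 * b) (by positivity)
    (l.map fun p => p.1 * z * star p.1 * (p.2 * star z * star p.2)) (fun x hx => by
      obtain ⟨p, hp, rfl⟩ := List.mem_map.1 hx
      obtain ⟨h1, h2⟩ := hl p hp
      have h3 := BL.mul (BL.mul (BL.mul h1 hz) (BL.star hG hq h1))
        (BL.mul (BL.mul h2 (BL.star hG hq hz)) (BL.star hG hq h2))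
      refine BL.mono ?_ h3
      linarith)
  rwa [List.length_map] at h

lemma norm_cw (hG : IsG G L) {l : List (𝔸 × 𝔸)} (hl : ∀ p ∈ l, p.1 ∈ G ∧ p.2 ∈ G) {z : 𝔸}
    (hz : z ∈ G) : ‖cw l z - 1‖ ≤ 2 * l.length * ‖z - 1‖ := by
  induction l with
  | nil => simp [cw]
  | cons p l ih =>
    have hl' : ∀ p ∈ l, p.1 ∈ G ∧ p.2 ∈ G := fun p' hp' => hl p' (by simp [hp'])
    obtain ⟨h1, h2⟩ := hl p (by simp)
    have e : cw (p :: l) z = p.1 * z * star p.1 * (p.2 * star z * star p.2) * cw l z := by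
      simp [cw]
    rw [e]
    refine (hG.norm_mul_sub_one (cw_mem hG hl' hz)).trans ?_
    have h3 := hG.norm_mul_sub_one (g := p.1 * z * star p.1)
      (hG.mul _ (hG.mul _ h2 _ (hG.st _ hz)) _ (hG.st _ h2))
    rw [hG.norm_conj_sub_one h1, hG.norm_conj_sub_one h2, hG.norm_star_sub_one hz] at h3
    have h4 := ih hl'
    rw [List.length_cons]
    push_cast
    nlinarith [norm_nonneg (z - 1)]

variable {W : Submodule ℝ 𝔸}

lemma cw_eqv (hG : IsG G L) (hW : Inv G W) {z z' : 𝔸} (hz : z ∈ G) (hz' : z' ∈ G)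
    (h : Eqv W z z') (l : List (𝔸 × 𝔸)) (hl : ∀ p ∈ l, p.1 ∈ G ∧ p.2 ∈ G) :
    Eqv W (cw l z) (cw l z') := by
  induction l with
  | nil => exact Eqv.refl _
  | cons p l ih =>
    have hl' : ∀ p ∈ l, p.1 ∈ G ∧ p.2 ∈ G := fun p' hp' => hl p' (by simp [hp'])
    obtain ⟨h1, h2⟩ := hl p (by simp)
    have e : ∀ z, cw (p :: l) z = p.1 * z * star p.1 * (p.2 * star z * star p.2) * cw l z := by
      intro z
      simp [cw]
    rw [e, e]
    refine Eqv.mul hW (cw_mem hG hl' hz') (Eqv.mul hW ?_ ?_ ?_) (ih hl')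
    · exact hG.mul _ (hG.mul _ h2 _ (hG.st _ hz')) _ (hG.st _ h2)
    · exact Eqv.mul hW (hG.st _ h1) (Eqv.mul hW hz' (Eqv.refl _) h) (Eqv.refl _)
    · exact Eqv.mul hW (hG.st _ h2) (Eqv.mul hW (hG.st _ hz') (Eqv.refl _) (Eqv.star hG hW hz hz' h))
        (Eqv.refl _)

/-- replace the conjugating elements by equivalent ones in a subset -/
lemma cw_replace (hG : IsG G L) (hW : Inv G W) (B : Set 𝔸) (hB : B ⊆ G)
    (h : ∀ g ∈ G, ∃ s ∈ B, Eqv W s g) (l : List (𝔸 × 𝔸)) (hl : ∀ p ∈ l, p.1 ∈ G ∧ p.2 ∈ G) :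
    ∃ l' : List (𝔸 × 𝔸), l'.length = l.length ∧ (∀ p ∈ l', p.1 ∈ B ∧ p.2 ∈ B) ∧
      ∀ z ∈ G, Eqv W (cw l' z) (cw l z) := by
  induction l with
  | nil => exact ⟨[], rfl, by simp, fun z _ => Eqv.refl _⟩
  | cons p l ih =>
    have hl' : ∀ p ∈ l, p.1 ∈ G ∧ p.2 ∈ G := fun p' hp' => hl p' (by simp [hp'])
    obtain ⟨h1, h2⟩ := hl p (by simp)
    obtain ⟨l', h3, h4, h5⟩ := ih hl'
    obtain ⟨s1, hs1, hs1'⟩ := h _ h1
    obtain ⟨s2, hs2, hs2'⟩ := h _ h2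
    refine ⟨(s1, s2) :: l', by simp [h3], ?_, ?_⟩
    · intro p' hp'
      rcases List.mem_cons.1 hp' with rfl | h6
      · exact ⟨hs1, hs2⟩
      · exact h4 p' h6
    · intro z hz
      have e : ∀ (p : 𝔸 × 𝔸) (l : List (𝔸 × 𝔸)), cw (p :: l) z =
          p.1 * z * star p.1 * (p.2 * star z * star p.2) * cw l z := by
        intro p l
        simp [cw]
      rw [e, e]
      refine Eqv.mul hW (cw_mem hG hl' hz) (Eqv.mul hW ?_ ?_ ?_) (h5 z hz)
      · exact hG.mul _ (hG.mul _ h2 _ (hG.st _ hz)) _ (hG.st _ h2)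
      · exact Eqv.mul hW (hG.st _ h1) (Eqv.mul hW hz hs1' (Eqv.refl _))
          (Eqv.star hG hW (hB hs1) h1 hs1')
      · exact Eqv.mul hW (hG.st _ h2) (Eqv.mul hW (hG.st _ hz) hs2' (Eqv.refl _))
          (Eqv.star hG hW (hB hs2) h2 hs2')

end Pool.Agent.W544.EG
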