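import Mathlib
import Pool.Agent.W544.EG.Gen

/-!
# The two covering lemmas (one-parameter and conjugation)
-/

open Filter Topology

namespace Pool.Agent.W544.EG

set_option linter.unusedSectionVars false
set_option linter.style.haveILetI false


variable {𝔸 : Type} [NormedRing 𝔸] [NormedAlgebra ℝ 𝔸] [FiniteDimensional ℝ 𝔸] [StarRing 𝔸]
  [StarModule ℝ 𝔸] [ContinuousStar 𝔸]
variable {G : Set 𝔸} {L : Submodule ℝ 𝔸}

lemma prod_strict {E ι : Type} [NormedAddCommGroup E] [NormedSpace ℝ E] (f : ι → E → 𝔸)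
    (f' : ι → E →L[ℝ] 𝔸) (x : E) (l : List ι) (h : ∀ i ∈ l, HasStrictFDerivAt (f i) (f' i) x)
    (h1 : ∀ i ∈ l, f i x = 1) :
    HasStrictFDerivAt (fun y => (l.map fun i => f i y).prod) ((l.map f').sum) x ∧
      (l.map fun i => f i x).prod = 1 := by
  induction l with
  | nil =>
    refine ⟨?_, by simp⟩
    simp only [List.map_nil, List.prod_nil, List.sum_nil]
    exact hasStrictFDerivAt_const _ _
  | cons i l ih =>
    obtain ⟨h2, h3⟩ := ih (fun j hj => h j (by simp [hj])) (fun j hj => h1 j (by simp [hj]))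
    refine ⟨?_, ?_⟩
    · simp only [List.map_cons, List.prod_cons, List.sum_cons]
      have h4 := (h i (by simp)).mul' h2
      rw [h3, h1 i (by simp)] at h4
      refine h4.congr_fderiv ?_
      simp [add_comm]
    · simp only [List.map_cons, List.prod_cons]
      rw [h3, h1 i (by simp), one_mul]

lemma exists_fin_span {V : Submodule ℝ 𝔸} {s : Set 𝔸} (h : V ≤ Submodule.span ℝ s) :
    ∃ (n : ℕ) (f : Fin n → 𝔸), (∀ i, f i ∈ s) ∧ ∀ w ∈ V, ∃ σ : Fin n → ℝ, ∑ i, σ i • f i = w := by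
  obtain ⟨f, hf1, hf2, _⟩ := Submodule.exists_fun_fin_finrank_span_eq ℝ s
  refine ⟨_, f, hf1, fun w hw => ?_⟩
  have h1 := h hw
  rw [← hf2, Submodule.mem_span_range_iff_exists_fun] at h1
  exact h1

/-- derivative of `σ ↦ exp (σ w)` jointly, at `σ = 0` -/
lemma exp_factor {E : Type} [NormedAddCommGroup E] [NormedSpace ℝ E] {c : E → ℝ} {c' : E →L[ℝ] ℝ}
    {w : E → 𝔸} {w' : E →L[ℝ] 𝔸} {x : E} (hc : HasStrictFDerivAt c c' x)
    (hw : HasStrictFDerivAt w w' x) (h0 : c x = 0) :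
    HasStrictFDerivAt (fun y => NormedSpace.exp (c y • w y)) (c'.smulRight (w x)) x := by
  have h1 := hc.smul hw
  have h2 : HasStrictFDerivAt (NormedSpace.exp : 𝔸 → 𝔸) (ContinuousLinearMap.id ℝ 𝔸) (c x • w x) := by
    rw [h0, zero_smul]; exact exp_strict
  have h3 := h2.comp x h1
  refine h3.congr_fderiv ?_
  rw [h0]
  ext y
  simp

variable {W : Submodule ℝ 𝔸} {P : 𝔸 →L[ℝ] 𝔸}

/-- one-parameter covering lemma -/
lemma op_cover (hG : IsG G L) (hP : IsP G L W P) (hW : W ≤ L) (hI : Inv G W) (w₀ : 𝔸)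
    (hspan : W ≤ Submodule.span ℝ {x | ∃ g ∈ G, x = g * w₀ * star g}) :
    ∃ (n : ℕ) (k : Fin n → 𝔸) (δ η : ℝ), 0 < δ ∧ 0 < η ∧ (∀ i, k i ∈ G) ∧
      ∀ w ∈ L, ‖w - w₀‖ < η → ∀ y : Fin n → 𝔸, (∀ i, y i ∈ G ∧ ‖y i - k i‖ < η) →
      ∀ v ∈ W, ‖v‖ < δ → ∃ σ : Fin n → ℝ, (∀ i, |σ i| < 1) ∧
        Eqv W ((List.finRange n).map fun i => y i * NormedSpace.exp (σ i • w) * star (y i)).prod (NormedSpace.exp v) := by
  haveI : CompleteSpace 𝔸 := FiniteDimensional.complete ℝ 𝔸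
  obtain ⟨n, f, hf1, hf2⟩ := exists_fin_span hspan
  choose k hk hk2 using hf1
  set fac : Fin n → (𝔸 × (Fin n → 𝔸)) × (Fin n → ℝ) → 𝔸 :=
    fun i x => x.1.2 i * NormedSpace.exp (x.2 i • x.1.1) * star (x.1.2 i) with hfac
  have hy : ∀ i : Fin n, HasStrictFDerivAt (fun x : (𝔸 × (Fin n → 𝔸)) × (Fin n → ℝ) => x.1.2 i)
      ((ContinuousLinearMap.proj i).comp ((ContinuousLinearMap.snd ℝ 𝔸 (Fin n → 𝔸)).comp
        (ContinuousLinearMap.fst ℝ (𝔸 × (Fin n → 𝔸)) (Fin n → ℝ)))) ((w₀, k), 0) := fun i =>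
    ((ContinuousLinearMap.proj i).comp ((ContinuousLinearMap.snd ℝ 𝔸 (Fin n → 𝔸)).comp
        (ContinuousLinearMap.fst ℝ (𝔸 × (Fin n → 𝔸)) (Fin n → ℝ)))).hasStrictFDerivAt
  have hw : HasStrictFDerivAt (fun x : (𝔸 × (Fin n → 𝔸)) × (Fin n → ℝ) => x.1.1)
      ((ContinuousLinearMap.fst ℝ 𝔸 (Fin n → 𝔸)).comp
        (ContinuousLinearMap.fst ℝ (𝔸 × (Fin n → 𝔸)) (Fin n → ℝ))) ((w₀, k), 0) :=
    ((ContinuousLinearMap.fst ℝ 𝔸 (Fin n → 𝔸)).comp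
        (ContinuousLinearMap.fst ℝ (𝔸 × (Fin n → 𝔸)) (Fin n → ℝ))).hasStrictFDerivAt
  have hs : ∀ i : Fin n, HasStrictFDerivAt (fun x : (𝔸 × (Fin n → 𝔸)) × (Fin n → ℝ) => x.2 i)
      ((ContinuousLinearMap.proj i).comp (ContinuousLinearMap.snd ℝ (𝔸 × (Fin n → 𝔸)) (Fin n → ℝ)))
      ((w₀, k), 0) := fun i =>
    ((ContinuousLinearMap.proj i).comp
      (ContinuousLinearMap.snd ℝ (𝔸 × (Fin n → 𝔸)) (Fin n → ℝ))).hasStrictFDerivAt
  have hex : ∀ i : Fin n, HasStrictFDerivAt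
      (fun x : (𝔸 × (Fin n → 𝔸)) × (Fin n → ℝ) => NormedSpace.exp (x.2 i • x.1.1))
      (((ContinuousLinearMap.proj i).comp
        (ContinuousLinearMap.snd ℝ (𝔸 × (Fin n → 𝔸)) (Fin n → ℝ))).smulRight w₀) ((w₀, k), 0) :=
    fun i => exp_factor (hs i) hw rfl
  have hys : ∀ i : Fin n, HasStrictFDerivAt (fun x : (𝔸 × (Fin n → 𝔸)) × (Fin n → ℝ) => star (x.1.2 i))
      (((starL' ℝ : 𝔸 ≃L[ℝ] 𝔸) : 𝔸 →L[ℝ] 𝔸).comp
        ((ContinuousLinearMap.proj i).comp ((ContinuousLinearMap.snd ℝ 𝔸 (Fin n → 𝔸)).comp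
        (ContinuousLinearMap.fst ℝ (𝔸 × (Fin n → 𝔸)) (Fin n → ℝ))))) ((w₀, k), 0) := fun i =>
    ((starL' ℝ : 𝔸 ≃L[ℝ] 𝔸) : 𝔸 →L[ℝ] 𝔸).hasStrictFDerivAt.comp _ (hy i)
  have hfac' : ∀ i : Fin n, ∃ D : (𝔸 × (Fin n → 𝔸)) × (Fin n → ℝ) →L[ℝ] 𝔸,
      HasStrictFDerivAt (fac i) D ((w₀, k), 0) ∧ ∀ σ, D (0, σ) = σ i • f i := by
    intro i
    refine ⟨_, ((hy i).mul' (hex i)).mul' (hys i), fun σ => ?_⟩
    rw [hk2]
    simp [exp_zero']
  choose D hD1 hD2 using hfac'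
  have hone : ∀ i ∈ List.finRange n, fac i ((w₀, k), 0) = 1 := by
    intro i _
    simp only [hfac, Pi.zero_apply, zero_smul, exp_zero', mul_one]
    exact hG.ms _ (hk i)
  obtain ⟨h1, h2⟩ := prod_strict fac D ((w₀, k), 0) (List.finRange n) (fun i _ => hD1 i) hone
  obtain ⟨δ, hδ, h3⟩ := cover hG hP hW hI _ _ (w₀, k) h1 h2 (fun w hw => by
    obtain ⟨σ, hσ⟩ := hf2 w hw
    refine ⟨σ, ?_⟩
    rw [← hσ]
    have : ∀ l : List (Fin n), ((l.map D).sum : (𝔸 × (Fin n → 𝔸)) × (Fin n → ℝ) →L[ℝ] 𝔸) (0, σ) =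
        (l.map fun i => σ i • f i).sum := by
      intro l
      induction l with
      | nil => simp
      | cons i l ih => simp [hD2, ih]
    rw [this]
    exact (List.sum_ofFn (f := fun i => σ i • f i)) ▸ (by rw [List.ofFn_eq_map])) one_pos
  obtain ⟨η, hη, h4⟩ := Metric.eventually_nhds_iff.1 h3
  refine ⟨n, k, δ, η, hδ, hη, hk, fun w hwL hw0 y hy0 v hv hvδ => ?_⟩
  have h5 : dist ((w, y) : 𝔸 × (Fin n → 𝔸)) (w₀, k) < η := by
    rw [Prod.dist_eq]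
    refine max_lt (by rw [dist_eq_norm]; exact hw0) ?_
    rw [dist_pi_lt_iff hη]
    intro i
    rw [dist_eq_norm]
    exact (hy0 i).2
  obtain ⟨σ, hσ1, hσ2⟩ := h4 h5 (fun σ _ => by
    refine hG.list_prod_mem _ fun x hx => ?_
    obtain ⟨i, _, rfl⟩ := List.mem_map.1 hx
    exact hG.mul _ (hG.mul _ (hy0 i).1 _ (hG.exp_mem (L.smul_mem _ hwL))) _ (hG.st _ (hy0 i).1)) v hv hvδ
  refine ⟨σ, fun i => ?_, hσ2⟩
  exact lt_of_le_of_lt (norm_le_pi_norm σ i) hσ1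

/-- conjugation covering lemma -/
lemma cp_cover (hG : IsG G L) (hP : IsP G L W P) (hW : W ≤ L) (hI : Inv G W) {z₀ : 𝔸} (hz₀ : z₀ ∈ G)
    (hspan : W ≤ Submodule.span ℝ {x | ∃ g ∈ G, ∃ A ∈ W, x = g * (A - z₀ * A * star z₀) * star g}) :
    ∃ (n : ℕ) (δ η : ℝ), 0 < δ ∧ 0 < η ∧
      ∀ z ∈ G, ‖z - z₀‖ < η → ∀ v ∈ W, ‖v‖ < δ → ∃ l : List (𝔸 × 𝔸), l.length = n ∧
        (∀ p ∈ l, p.1 ∈ G ∧ p.2 ∈ G) ∧ Eqv W (cw l z) (NormedSpace.exp v) := by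
  haveI : CompleteSpace 𝔸 := FiniteDimensional.complete ℝ 𝔸
  obtain ⟨n, f, hf1, hf2⟩ := exists_fin_span hspan
  choose k hk A hA hkA using hf1
  set fac : Fin n → 𝔸 × (Fin n → ℝ) → 𝔸 :=
    fun i x => k i * NormedSpace.exp (x.2 i • A i) * x.1 * NormedSpace.exp (x.2 i • (-A i)) * star (x.1) * star (k i) with hfac
  have hz : HasStrictFDerivAt (fun x : 𝔸 × (Fin n → ℝ) => x.1)
      (ContinuousLinearMap.fst ℝ 𝔸 (Fin n → ℝ)) (z₀, 0) :=
    (ContinuousLinearMap.fst ℝ 𝔸 (Fin n → ℝ)).hasStrictFDerivAt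
  have hzs : HasStrictFDerivAt (fun x : 𝔸 × (Fin n → ℝ) => star x.1)
      (((starL' ℝ : 𝔸 ≃L[ℝ] 𝔸) : 𝔸 →L[ℝ] 𝔸).comp (ContinuousLinearMap.fst ℝ 𝔸 (Fin n → ℝ))) (z₀, 0) :=
    ((starL' ℝ : 𝔸 ≃L[ℝ] 𝔸) : 𝔸 →L[ℝ] 𝔸).hasStrictFDerivAt.comp _ hz
  have hs : ∀ i : Fin n, HasStrictFDerivAt (fun x : 𝔸 × (Fin n → ℝ) => x.2 i)
      ((ContinuousLinearMap.proj i).comp (ContinuousLinearMap.snd ℝ 𝔸 (Fin n → ℝ)))
      (z₀, 0) := fun i =>
    ((ContinuousLinearMap.proj i).comp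
      (ContinuousLinearMap.snd ℝ 𝔸 (Fin n → ℝ))).hasStrictFDerivAt
  have hex : ∀ (i : Fin n) (B : 𝔸), HasStrictFDerivAt
      (fun x : 𝔸 × (Fin n → ℝ) => NormedSpace.exp (x.2 i • B))
      (((ContinuousLinearMap.proj i).comp
        (ContinuousLinearMap.snd ℝ 𝔸 (Fin n → ℝ))).smulRight B) (z₀, 0) :=
    fun i B => exp_factor (w := fun _ => B) (w' := (0 : 𝔸 × (Fin n → ℝ) →L[ℝ] 𝔸)) (hs i)
      (hasStrictFDerivAt_const B _) rfl
  have hfac' : ∀ i : Fin n, ∃ D : 𝔸 × (Fin n → ℝ) →L[ℝ] 𝔸,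
      HasStrictFDerivAt (fac i) D (z₀, 0) ∧ ∀ σ, D (0, σ) = σ i • f i := by
    intro i
    have h0 : HasStrictFDerivAt (fun _ : 𝔸 × (Fin n → ℝ) => k i)
        (0 : 𝔸 × (Fin n → ℝ) →L[ℝ] 𝔸) (z₀, 0) :=
      hasStrictFDerivAt_const _ _
    have h0' : HasStrictFDerivAt (fun _ : 𝔸 × (Fin n → ℝ) => star (k i))
        (0 : 𝔸 × (Fin n → ℝ) →L[ℝ] 𝔸) (z₀, 0) :=
      hasStrictFDerivAt_const _ _
    refine ⟨_, ((((h0.mul' (hex i (A i))).mul' hz).mul' (hex i (-A i))).mul' hzs).mul' h0', fun σ => ?_⟩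
    rw [hkA]
    have e : A i - z₀ * A i * star z₀ = A i * z₀ * star z₀ - z₀ * A i * star z₀ := by
      rw [mul_assoc (A i), hG.ms _ hz₀, mul_one]
    rw [e]
    simp [exp_zero', mul_sub, sub_mul, smul_sub, ← mul_assoc]
    abel
  choose D hD1 hD2 using hfac'
  have hone : ∀ i ∈ List.finRange n, fac i (z₀, 0) = 1 := by
    intro i _
    simp only [hfac, Pi.zero_apply, zero_smul, exp_zero', mul_one]
    rw [mul_assoc (k i), hG.ms _ hz₀, mul_one]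
    exact hG.ms _ (hk i)
  obtain ⟨h1, h2⟩ := prod_strict fac D (z₀, 0) (List.finRange n) (fun i _ => hD1 i) hone
  obtain ⟨δ, hδ, h3⟩ := cover hG hP hW hI _ _ z₀ h1 h2 (fun w hw => by
    obtain ⟨σ, hσ⟩ := hf2 w hw
    refine ⟨σ, ?_⟩
    rw [← hσ]
    have : ∀ l : List (Fin n), ((l.map D).sum : 𝔸 × (Fin n → ℝ) →L[ℝ] 𝔸) (0, σ) =
        (l.map fun i => σ i • f i).sum := by
      intro l
      induction l with
      | nil => simp
      | cons i l ih => simp [hD2, ih]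
    rw [this]
    exact (List.sum_ofFn (f := fun i => σ i • f i)) ▸ (by rw [List.ofFn_eq_map])) one_pos
  obtain ⟨η, hη, h4⟩ := Metric.eventually_nhds_iff.1 h3
  have hmem : ∀ z ∈ G, ∀ (σ : Fin n → ℝ) (i : Fin n), fac i (z, σ) ∈ G := by
    intro z hz σ i
    have e1 : ∀ c : ℝ, NormedSpace.exp (c • A i) ∈ G := fun c => hG.exp_mem (L.smul_mem _ (hW (hA i)))
    have e2 : NormedSpace.exp (σ i • (-A i)) ∈ G := by rw [smul_neg, ← neg_smul]; exact e1 _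
    exact hG.mul _ (hG.mul _ (hG.mul _ (hG.mul _ (hG.mul _ (hk i) _ (e1 _)) _ hz) _ e2) _ (hG.st _ hz)) _ (hG.st _ (hk i))
  refine ⟨n, δ, η, hδ, hη, fun z hz hz0 v hv hvδ => ?_⟩
  obtain ⟨σ, hσ1, hσ2⟩ := h4 (show dist z z₀ < η by rwa [dist_eq_norm]) (fun σ _ => by
    refine hG.list_prod_mem _ fun x hx => ?_
    obtain ⟨i, _, rfl⟩ := List.mem_map.1 hx
    exact hmem z hz σ i) v hv hvδ
  refine ⟨(List.finRange n).map fun i => (k i * NormedSpace.exp (σ i • A i), k i), by simp, ?_, ?_⟩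
  · intro p hp
    obtain ⟨i, _, rfl⟩ := List.mem_map.1 hp
    exact ⟨hG.mul _ (hk i) _ (hG.exp_mem (L.smul_mem _ (hW (hA i)))), hk i⟩
  · refine Eqv.trans ?_ hσ2
    have e : cw ((List.finRange n).map fun i => (k i * NormedSpace.exp (σ i • A i), k i)) z =
        ((List.finRange n).map fun i => fac i (z, σ)).prod := by
      unfold cw
      rw [List.map_map]
      congr 1
      refine List.map_congr_left fun i _ => ?_
      simp only [Function.comp_apply, hfac, star_mul]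
      rw [hG.star_exp (L.smul_mem _ (hW (hA i))), smul_neg]
      calc k i * NormedSpace.exp (σ i • A i) * z * (NormedSpace.exp (-(σ i • A i)) * star (k i)) * (k i * star z * star (k i))
          = k i * NormedSpace.exp (σ i • A i) * z * NormedSpace.exp (-(σ i • A i)) * (star (k i) * k i) * star z * star (k i) := by
            noncomm_ring
        _ = _ := by rw [hG.sm _ (hk i), mul_one]
    rw [e]
    exact Eqv.refl _

end Pool.Agent.W544.EG
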