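import Mathlib
import Pool.Agent.W544.EG.OP

/-!
# The semisimple part: dense length balls become everything modulo the centre
-/

open Filter Topology

namespace Pool.Agent.W544.EG

set_option linter.unusedSectionVars false
set_option linter.style.haveILetI false


variable {𝔸 : Type} [NormedRing 𝔸] [NormedAlgebra ℝ 𝔸] [FiniteDimensional ℝ 𝔸] [StarRing 𝔸]
  [StarModule ℝ 𝔸] [ContinuousStar 𝔸]
variable {G : Set 𝔸} {L : Submodule ℝ 𝔸} {W V W₁ : Submodule ℝ 𝔸} {P : 𝔸 →L[ℝ] 𝔸}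

/-- density implies that the `K`-fold ball is everything modulo `W` -/
def PP (G : Set 𝔸) (L W : Submodule ℝ 𝔸) : Prop :=
  ∃ K : ℝ, 0 ≤ K ∧ ∃ ε > 0, ∀ q : 𝔸 → ℝ, IsLen L q → ∀ t : ℝ, 0 ≤ t →
    (∀ g ∈ G, ∃ s ∈ BL L q t, ‖s - g‖ < ε) → ∀ g ∈ G, ∃ s ∈ BL L q (K * t), Eqv W s g

/-- irreducible nontrivial invariant subspaces -/
structure Irr (G : Set 𝔸) (L V : Submodule ℝ 𝔸) : Prop where
  le : V ≤ L
  inv : Inv G V
  ne : V ≠ ⊥
  mini : ∀ U : Submodule ℝ 𝔸, U ≤ V → Inv G U → U ≠ ⊥ → U = V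
  nofix : ∀ X ∈ V, (∀ g ∈ G, g * X * star g = X) → X = 0

lemma Eqv.list_prod (hI : Inv G W) {ι : Type} (f f' : ι → 𝔸) (hG : IsG G L) (l : List ι)
    (hf' : ∀ i ∈ l, f' i ∈ G) (h : ∀ i ∈ l, Eqv W (f i) (f' i)) :
    Eqv W (l.map f).prod (l.map f').prod := by
  induction l with
  | nil => exact Eqv.refl _
  | cons i l ih =>
    simp only [List.map_cons, List.prod_cons]
    refine Eqv.mul hI ?_ (h i (by simp)) (ih (fun j hj => hf' j (by simp [hj])) fun j hj => h j (by simp [hj]))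
    refine hG.list_prod_mem _ fun x hx => ?_
    obtain ⟨j, hj, rfl⟩ := List.mem_map.1 hx
    exact hf' j (by simp [hj])

lemma norm_list_prod (hG : IsG G L) {ι : Type} (f : ι → 𝔸) (l : List ι) (hf : ∀ i ∈ l, f i ∈ G) :
    ‖(l.map f).prod - 1‖ ≤ (l.map fun i => ‖f i - 1‖).sum := by
  induction l with
  | nil => simp
  | cons i l ih =>
    simp only [List.map_cons, List.prod_cons, List.sum_cons]
    refine (hG.norm_mul_sub_one ?_).trans ?_
    · refine hG.list_prod_mem _ fun x hx => ?_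
      obtain ⟨j, hj, rfl⟩ := List.mem_map.1 hx
      exact hf j (by simp [hj])
    · have := ih fun j hj => hf j (by simp [hj])
      linarith

/-- conjugation is Lipschitz -/
lemma norm_conj_sub (hG : IsG G L) {g h : 𝔸} (hg : g ∈ G) (hh : h ∈ G) (Y : 𝔸) :
    ‖g * Y * star g - h * Y * star h‖ ≤ 2 * ‖g - h‖ * ‖Y‖ := by
  have e : g * Y * star g - h * Y * star h = (g - h) * Y * star g + h * Y * (star g - star h) := by
    noncomm_ring
  rw [e]
  refine (norm_add_le _ _).trans ?_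
  rw [hG.isom' _ (hG.st _ hg), mul_assoc h, hG.isom _ hh]
  have h1 : ‖star g - star h‖ = ‖g - h‖ := by
    have e2 : star g - star h = star g * (h - g) * star h := by
      rw [mul_sub, sub_mul, hG.sm _ hg, mul_assoc, hG.ms _ hh, mul_one, one_mul]
    rw [e2, hG.isom' _ (hG.st _ hh), hG.isom _ (hG.st _ hg), norm_sub_rev]
  have h2 := norm_mul_le (g - h) Y
  have h3 := norm_mul_le Y (star g - star h)
  rw [h1] at h3
  linarith [mul_comm ‖Y‖ ‖g - h‖]

/-- a long vector exists in the unit ball of a dense length ball -/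
lemma exists_long (hG : IsG G L) (hP : IsP G L V P) (hV : V ≤ L) (hI : Inv G V) {Y g₁ : 𝔸}
    (hY : Y ∈ V) (hg₁ : g₁ ∈ G) (hne : g₁ * Y * star g₁ ≠ Y) :
    ∃ c > 0, ∃ ε > 0, ∀ q : 𝔸 → ℝ, IsLen L q → ∀ t : ℝ, 0 ≤ t →
    (∃ s ∈ BL L q t, ‖s - g₁‖ < ε) → ∃ u ∈ L, q u ≤ t ∧ ‖P u‖ = c := by
  have hY0 : 0 < ‖Y‖ := by
    rw [norm_pos_iff]
    rintro rfl
    exact hne (by simp)
  set m₀ := ‖g₁ * Y * star g₁ - Y‖ with hm₀
  have hm : 0 < m₀ := norm_pos_iff.2 (sub_ne_zero.2 hne)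
  set c := m₀ / (8 * ‖Y‖) with hc
  have hc0 : 0 < c := by positivity
  have hcY : c * ‖Y‖ = m₀ / 8 := by rw [hc]; field_simp
  refine ⟨c, hc0, c, hc0, fun q hq t ht ⟨s, hs, hsg⟩ => ?_⟩
  by_contra hcon
  push Not at hcon
  -- all vectors of length `≤ t` have small projection
  have h1 : ∀ u ∈ L, q u ≤ t → ‖P u‖ < c := by
    intro u hu hqu
    by_contra h
    push Not at h
    have hpos : 0 < ‖P u‖ := hc0.trans_le h
    have h2 := hcon ((c / ‖P u‖) • u) (L.smul_mem _ hu) (by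
      rw [hq.smul _ u hu, abs_of_nonneg (by positivity)]
      have : c / ‖P u‖ ≤ 1 := by rw [div_le_one hpos]; exact h
      have h3 := hq.nonneg u hu
      nlinarith)
    apply h2
    rw [map_smul, norm_smul, Real.norm_of_nonneg (by positivity)]
    field_simp
  have h2 : ∀ X ∈ L, t * ‖P X‖ ≤ c * q X ∧ (q X = 0 → ‖P X‖ = 0) := by
    intro X hX
    have h0 : q X = 0 → ‖P X‖ = 0 := by
      intro h0
      by_contra hne0
      have hpos : 0 < ‖P X‖ := lt_of_le_of_ne (norm_nonneg _) (Ne.symm hne0)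
      have h3 := h1 ((c / ‖P X‖) • X) (L.smul_mem _ hX) (by
        rw [hq.smul _ X hX, h0, mul_zero]; exact ht)
      rw [map_smul, norm_smul, Real.norm_of_nonneg (by positivity), div_mul_cancel₀ _ hpos.ne'] at h3
      exact lt_irrefl _ h3
    refine ⟨?_, h0⟩
    rcases (hq.nonneg X hX).eq_or_lt with h | h
    · rw [h0 h.symm, ← h]; simp
    · have h3 := h1 ((t / q X) • X) (L.smul_mem _ hX) (by
        rw [hq.smul _ X hX, abs_of_nonneg (by positivity), div_mul_cancel₀ _ h.ne'])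
      rw [map_smul, norm_smul, Real.norm_of_nonneg (by positivity), div_mul_eq_mul_div,
        div_lt_iff₀ h] at h3
      exact h3.le
  obtain ⟨l, hl, rfl, hlt⟩ := hs
  have h3 : (l.map fun X => ‖P X‖).sum ≤ c := by
    rcases ht.eq_or_lt with h | h
    · have h4 : ∀ X ∈ l, q X = 0 := by
        intro X hX
        have h5 : q X ≤ (l.map q).sum :=
          List.single_le_sum (fun y hy => by
            obtain ⟨Z, hZ, rfl⟩ := List.mem_map.1 hy
            exact hq.nonneg Z (hl Z hZ)) _ (List.mem_map.2 ⟨X, hX, rfl⟩)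
        have h6 := hq.nonneg X (hl X hX)
        linarith
      have h5 : (l.map fun X => ‖P X‖).sum = 0 := by
        apply List.sum_eq_zero
        intro y hy
        obtain ⟨Z, hZ, rfl⟩ := List.mem_map.1 hy
        exact (h2 Z (hl Z hZ)).2 (h4 Z hZ)
      rw [h5]; exact hc0.le
    · have h4 : t * (l.map fun X => ‖P X‖).sum ≤ c * (l.map q).sum := by
        rw [← List.sum_map_mul_left, ← List.sum_map_mul_left]
        exact List.sum_le_sum fun X hX => (h2 X (hl X hX)).1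
      have h5 : t * (l.map fun X => ‖P X‖).sum ≤ t * c := by nlinarith
      exact le_of_mul_le_mul_left h5 h
  set s := (l.map NormedSpace.exp).prod with hs
  set s' := (l.map fun X => NormedSpace.exp (P X)).prod with hs'
  have hsG : s ∈ G := by
    refine hG.list_prod_mem _ fun z hz => ?_
    obtain ⟨X, hX, rfl⟩ := List.mem_map.1 hz
    exact hG.exp_mem (hl X hX)
  have hPL : ∀ X, NormedSpace.exp (P X) ∈ G := fun X => hG.exp_mem (hV (hP.mem X))
  have hs'G : s' ∈ G := by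
    refine hG.list_prod_mem _ fun z hz => ?_
    obtain ⟨X, hX, rfl⟩ := List.mem_map.1 hz
    exact hPL X
  have h4 : Eqv V s s' := Eqv.list_prod hI _ _ hG l (fun X _ => hPL X)
    (fun X hX => hP.eqv_exp hG hV hI (hl X hX))
  have h5 : ‖s' - 1‖ ≤ c := by
    refine (norm_list_prod hG _ l fun X _ => hPL X).trans (le_trans ?_ h3)
    exact List.sum_le_sum fun X _ => hG.norm_exp_sub_one (hV (hP.mem X))
  have h6 := norm_conj_sub hG hs'G hG.one Y
  rw [one_mul, star_one, mul_one] at h6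
  have h7 := norm_conj_sub hG hg₁ hsG Y
  have h8 : m₀ ≤ ‖g₁ * Y * star g₁ - s * Y * star s‖ + ‖s' * Y * star s' - Y‖ := by
    have e : g₁ * Y * star g₁ - Y = (g₁ * Y * star g₁ - s * Y * star s) + (s' * Y * star s' - Y) := by
      rw [h4 Y hY]; abel
    rw [hm₀, e]
    exact norm_add_le _ _
  rw [norm_sub_rev] at hsg
  have h9 : 2 * ‖g₁ - s‖ * ‖Y‖ ≤ 2 * (m₀ / 8) := by
    rw [← hcY]; nlinarith
  have h10 : 2 * ‖s' - 1‖ * ‖Y‖ ≤ 2 * (m₀ / 8) := by
    rw [← hcY]; nlinarith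
  linarith

/-- from small elements of `W` to the whole group -/
lemma spread (hG : IsG G L) (hc : IsPreconnected G) (hP : IsP G L W P) (hW : W ≤ L) (hI : Inv G W)
    {δ : ℝ} (hδ : 0 < δ) : ∃ n : ℕ, ∀ R : ℝ → Set 𝔸, (∀ a, R a ⊆ G) →
      (∀ a b, a ≤ b → R a ⊆ R b) → (1 : 𝔸) ∈ R 0 →
      (∀ a b x y, x ∈ R a → y ∈ R b → x * y ∈ R (a + b)) →
      ∀ a, 0 ≤ a → (∀ v ∈ W, ‖v‖ < δ → ∃ s ∈ R a, Eqv W s (NormedSpace.exp v)) →
      ∀ g ∈ G, ∃ s ∈ R (n * a), Eqv W s g := by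
  obtain ⟨n, hn⟩ := generate hG hc (δ := δ / (‖P‖ + 1)) (by positivity)
  refine ⟨n, fun R hRG hRm hR1 hRmul a ha h g hg => ?_⟩
  obtain ⟨l, hl1, hl2, rfl⟩ := hn g hg
  have key : ∀ l : List 𝔸, (∀ X ∈ l, X ∈ L ∧ ‖X‖ < δ / (‖P‖ + 1)) →
      ∃ s ∈ R (l.length * a), Eqv W s (l.map NormedSpace.exp).prod := by
    intro l
    induction l with
    | nil => 
      intro _
      refine ⟨1, by simpa using hR1, ?_⟩
      simp only [List.map_nil, List.prod_nil]
      exact Eqv.refl _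
    | cons X l ih =>
      intro hl
      obtain ⟨s, hs, hs'⟩ := ih fun Y hY => hl Y (by simp [hY])
      obtain ⟨hX, hXδ⟩ := hl X (by simp)
      have h2 : ‖P X‖ < δ := by
        have h3 := P.le_opNorm X
        have h4 : ‖P‖ * ‖X‖ ≤ (‖P‖ + 1) * ‖X‖ := by nlinarith [norm_nonneg X]
        have h5 : (‖P‖ + 1) * ‖X‖ < δ := by
          rw [lt_div_iff₀ (by positivity)] at hXδ
          linarith [mul_comm ‖X‖ (‖P‖ + 1)]
        linarith
      obtain ⟨s₀, hs₀, hs₀'⟩ := h _ (hP.mem X) h2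
      refine ⟨s₀ * s, ?_, ?_⟩
      · have e : (((X :: l).length : ℕ) : ℝ) * a = a + l.length * a := by
          rw [List.length_cons]; push_cast; ring
        rw [e]
        exact hRmul _ _ _ _ hs₀ hs
      · simp only [List.map_cons, List.prod_cons]
        refine Eqv.mul hI ?_ (hs₀'.trans (hP.eqv_exp hG hW hI hX).symm) hs'
        refine hG.list_prod_mem _ fun x hx => ?_
        obtain ⟨Y, hY, rfl⟩ := List.mem_map.1 hx
        exact hG.exp_mem (hl Y (by simp [hY])).1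
  obtain ⟨s, hs, hs'⟩ := key l hl2
  refine ⟨s, hRm _ _ ?_ hs, hs'⟩
  have : (l.length : ℝ) ≤ n := by exact_mod_cast hl1
  nlinarith

lemma inv_span {S : Set 𝔸} (h : ∀ g ∈ G, ∀ x ∈ S, g * x * star g ∈ S) : Inv G (Submodule.span ℝ S) := by
  intro g hg X hX
  induction hX using Submodule.span_induction with
  | mem x hx => exact Submodule.subset_span (h g hg x hx)
  | zero => simp
  | add x y _ _ hx hy => rw [mul_add, add_mul]; exact Submodule.add_mem _ hx hy
  | smul c x _ hx => rw [mul_smul_comm, smul_mul_assoc]; exact Submodule.smul_mem _ _ hx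

/-- the orbit of a nonzero vector of an irreducible subspace spans -/
lemma Irr.span_orbit (hG : IsG G L) (hV : Irr G L V) {w₀ : 𝔸} (hw : w₀ ∈ V) (hw0 : w₀ ≠ 0) :
    V ≤ Submodule.span ℝ {x | ∃ g ∈ G, x = g * w₀ * star g} := by
  have h1 : Submodule.span ℝ {x | ∃ g ∈ G, x = g * w₀ * star g} = V := by
    refine hV.mini _ ?_ ?_ ?_
    · rw [Submodule.span_le]
      rintro x ⟨g, hg, rfl⟩
      exact hV.inv g hg _ hw
    · refine inv_span ?_
      rintro g hg x ⟨g', hg', rfl⟩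
      refine ⟨g * g', hG.mul _ hg _ hg', ?_⟩
      rw [star_mul]; noncomm_ring
    · intro h
      apply hw0
      rw [Submodule.span_eq_bot] at h
      exact h _ ⟨1, hG.one, by simp⟩
  exact h1.ge

/-- the irreducible case -/
lemma Irr.pp (hG : IsG G L) (hc : IsPreconnected G) (hV : Irr G L V) (hP : IsP G L V P) :
    PP G L V := by
  haveI : CompleteSpace 𝔸 := FiniteDimensional.complete ℝ 𝔸
  haveI : ProperSpace 𝔸 := FiniteDimensional.proper ℝ 𝔸
  obtain ⟨Y, hY, hY0⟩ := Submodule.exists_mem_ne_zero_of_ne_bot hV.ne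
  obtain ⟨g₁, hg₁, hne⟩ : ∃ g ∈ G, g * Y * star g ≠ Y := by
    by_contra h
    push Not at h
    exact hY0 (hV.nofix Y hY h)
  obtain ⟨c, hc0, ε₀, hε₀, hlong⟩ := exists_long hG hP hV.le hV.inv hY hg₁ hne
  set p : Set 𝔸 → Prop := fun A => ∃ K : ℝ, 0 ≤ K ∧ ∃ ε > 0, ∃ δ > 0, ∀ q : 𝔸 → ℝ, IsLen L q →
    ∀ t : ℝ, 0 ≤ t → (∀ g ∈ G, ∃ s ∈ BL L q t, ‖s - g‖ < ε) → ∀ u ∈ L, q u ≤ t → P u ∈ A →
    ∀ v ∈ V, ‖v‖ < δ → ∃ s ∈ BL L q (K * t), Eqv V s (NormedSpace.exp v) with hp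
  have hcomp : IsCompact ((V : Set 𝔸) ∩ Metric.sphere 0 c) := by
    refine (isCompact_sphere (0 : 𝔸) c).inter_left ?_
    exact V.closed_of_finiteDimensional
  have hcov : p ((V : Set 𝔸) ∩ Metric.sphere 0 c) := by
    refine hcomp.induction_on ?_ ?_ ?_ ?_
    · refine ⟨0, le_rfl, 1, one_pos, 1, one_pos, ?_⟩
      intro q _ t _ _ u _ _ hu
      exact absurd hu (Set.notMem_empty _)
    · rintro s t hst ⟨K, hK, ε, hε, δ, hδ, h⟩
      exact ⟨K, hK, ε, hε, δ, hδ, fun q hq t' ht' hd u hu hqu hPu => h q hq t' ht' hd u hu hqu (hst hPu)⟩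
    · rintro s t ⟨K, hK, ε, hε, δ, hδ, h⟩ ⟨K', hK', ε', hε', δ', hδ', h'⟩
      refine ⟨max K K', le_max_of_le_left hK, min ε ε', lt_min hε hε', min δ δ', lt_min hδ hδ', ?_⟩
      intro q hq t' ht' hd u hu hqu hPu v hv hvδ
      rcases hPu with hPu | hPu
      · obtain ⟨x, hx, hx'⟩ := h q hq t' ht' (fun g hg => by
          obtain ⟨y, hy, hy'⟩ := hd g hg
          exact ⟨y, hy, hy'.trans_le (min_le_left _ _)⟩) u hu hqu hPu v hv (hvδ.trans_le (min_le_left _ _))
        exact ⟨x, BL.mono (mul_le_mul_of_nonneg_right (le_max_left _ _) ht') hx, hx'⟩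
      · obtain ⟨x, hx, hx'⟩ := h' q hq t' ht' (fun g hg => by
          obtain ⟨y, hy, hy'⟩ := hd g hg
          exact ⟨y, hy, hy'.trans_le (min_le_right _ _)⟩) u hu hqu hPu v hv (hvδ.trans_le (min_le_right _ _))
        exact ⟨x, BL.mono (mul_le_mul_of_nonneg_right (le_max_right _ _) ht') hx, hx'⟩
    · rintro w₀ ⟨hw₀, hw₀c⟩
      have hw0 : w₀ ≠ 0 := by
        rintro rfl
        rw [mem_sphere_zero_iff_norm, norm_zero] at hw₀c
        exact hc0.ne hw₀c
      obtain ⟨n, k, δ, η, hδ, hη, hk, h⟩ := op_cover hG hP hV.le hV.inv w₀ (hV.span_orbit hG hw₀ hw0)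
      refine ⟨Metric.ball w₀ η, mem_nhdsWithin_of_mem_nhds (Metric.ball_mem_nhds _ hη), ?_⟩
      refine ⟨3 * n, by positivity, η, hη, δ, hδ, ?_⟩
      intro q hq t ht hd u hu hqu hPu v hv hvδ
      choose y hy hy' using fun i => hd (k i) (hk i)
      rw [Metric.mem_ball, dist_eq_norm] at hPu
      obtain ⟨σ, hσ, hσ'⟩ := h (P u) (hV.le (hP.mem u)) hPu y
        (fun i => ⟨BL.mem hG (hy i), hy' i⟩) v hv hvδ
      refine ⟨((List.finRange n).map fun i => y i * NormedSpace.exp (σ i • u) * star (y i)).prod, ?_, ?_⟩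
      · have h1 := BL.list_prod (L := L) (q := q) (t := 3 * t) (by positivity)
          ((List.finRange n).map fun i => y i * NormedSpace.exp (σ i • u) * star (y i)) (fun x hx => by
            obtain ⟨i, _, rfl⟩ := List.mem_map.1 hx
            have h2 : NormedSpace.exp (σ i • u) ∈ BL L q t := by
              refine BL.exp (L.smul_mem _ hu) ?_
              rw [hq.smul _ _ hu]
              have := hq.nonneg u hu
              have h3 := (hσ i).le
              nlinarith [abs_nonneg (σ i)]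
            have h3 := BL.mul (BL.mul (hy i) h2) (BL.star hG hq (hy i))
            refine BL.mono ?_ h3
            linarith)
        rw [List.length_map, List.length_finRange] at h1
        refine BL.mono ?_ h1
        linarith
      · refine Eqv.trans ?_ hσ'
        refine Eqv.list_prod hV.inv _ _ hG _ (fun i _ => ?_) (fun i _ => ?_)
        · exact hG.mul _ (hG.mul _ (BL.mem hG (hy i)) _ (hG.exp_mem (L.smul_mem _ (hV.le (hP.mem u))))) _
            (hG.st _ (BL.mem hG (hy i)))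
        · refine Eqv.mul hV.inv (hG.st _ (BL.mem hG (hy i))) (Eqv.mul hV.inv
            (hG.exp_mem (L.smul_mem _ (hV.le (hP.mem u)))) (Eqv.refl _) ?_) (Eqv.refl _)
          have := hP.eqv_exp hG hV.le hV.inv (L.smul_mem (σ i) hu)
          rwa [map_smul] at this
  obtain ⟨K, hK, ε, hε, δ, hδ, h⟩ := hcov
  obtain ⟨n, hn⟩ := spread hG hc hP hV.le hV.inv hδ
  refine ⟨n * K, by positivity, min ε ε₀, lt_min hε hε₀, ?_⟩
  intro q hq t ht hd g hg
  have hd1 : ∀ g ∈ G, ∃ s ∈ BL L q t, ‖s - g‖ < ε := fun g hg => by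
    obtain ⟨y, hy, hy'⟩ := hd g hg
    exact ⟨y, hy, hy'.trans_le (min_le_left _ _)⟩
  obtain ⟨u, hu, hqu, hPu⟩ := hlong q hq t ht (by
    obtain ⟨y, hy, hy'⟩ := hd g₁ hg₁
    exact ⟨y, hy, hy'.trans_le (min_le_right _ _)⟩)
  have h1 := hn (fun a => BL L q a) (fun a x hx => BL.mem hG hx) (fun a b hab => BL.mono hab)
    (BL.one le_rfl) (fun a b x y hx hy => BL.mul hx hy) (K * t) (by positivity)
    (h q hq t ht hd1 u hu hqu ⟨hP.mem u, by rw [mem_sphere_zero_iff_norm]; exact hPu⟩) g hg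
  rw [← mul_assoc] at h1
  exact h1

end Pool.Agent.W544.EG
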