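import Mathlib
import Pool.Agent.W544.EG.Semi

/-!
# The inductive step and the main theorem on commutators
-/

open Filter Topology

namespace Pool.Agent.W544.EG

set_option linter.unusedSectionVars false
set_option linter.style.haveILetI false


variable {𝔸 : Type} [NormedRing 𝔸] [NormedAlgebra ℝ 𝔸] [FiniteDimensional ℝ 𝔸] [StarRing 𝔸]
  [StarModule ℝ 𝔸] [ContinuousStar 𝔸]
variable {G : Set 𝔸} {L : Submodule ℝ 𝔸} {W V W₁ : Submodule ℝ 𝔸} {P P₁ : 𝔸 →L[ℝ] 𝔸}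

/-- a generic element of the subgroup generated by `exp W` -/
def Gen (G : Set 𝔸) (W : Submodule ℝ 𝔸) : Prop :=
  ∃ z ∈ G, (∀ Y, (∀ X ∈ W, Commute X Y) → Commute z Y) ∧
    W ≤ Submodule.span ℝ {x | ∃ g ∈ G, ∃ A ∈ W, x = g * (A - z * A * star z) * star g}

lemma cw_one (hG : IsG G L) (l : List (𝔸 × 𝔸)) (hl : ∀ p ∈ l, p.1 ∈ G ∧ p.2 ∈ G) :
    cw l (1 : 𝔸) = 1 := by
  induction l with
  | nil => simp [cw]
  | cons p l ih =>
    have e : cw (p :: l) (1 : 𝔸) = p.1 * 1 * star p.1 * (p.2 * star 1 * star p.2) * cw l 1 := by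
      simp [cw]
    obtain ⟨h1, h2⟩ := hl p (by simp)
    rw [e, ih fun p' hp' => hl p' (by simp [hp']), star_one, mul_one, mul_one, mul_one,
      hG.ms _ h1, hG.ms _ h2, mul_one]

lemma eqv_one_of_commute (hG : IsG G L) {g : 𝔸} (hg : g ∈ G) (h : ∀ Y ∈ W, Commute g Y) :
    Eqv W g 1 := by
  intro Y hY
  rw [(h Y hY).eq, mul_assoc, hG.ms _ hg, star_one, one_mul, mul_one]

lemma commute_of_eqv_one (hG : IsG G L) {g : 𝔸} (hg : g ∈ G) (h : Eqv W g 1) {Y : 𝔸} (hY : Y ∈ W) :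
    Commute g Y := by
  have h1 := h Y hY
  rw [star_one, one_mul, mul_one] at h1
  show g * Y = Y * g
  calc g * Y = g * Y * (star g * g) := by rw [hG.sm _ hg, mul_one]
    _ = (g * Y * star g) * g := by noncomm_ring
    _ = Y * g := by rw [h1]

lemma Eqv.sup {g h : 𝔸} (h1 : Eqv W₁ g h) (h2 : Eqv V g h) : Eqv (W₁ ⊔ V) g h := by
  intro Y hY
  obtain ⟨a, ha, b, hb, rfl⟩ := Submodule.mem_sup.1 hY
  rw [mul_add, add_mul, mul_add, add_mul, h1 a ha, h2 b hb]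

lemma Inv.inf {U U' : Submodule ℝ 𝔸} (h : Inv G U) (h' : Inv G U') : Inv G (U ⊓ U') :=
  fun g hg X hX => ⟨h g hg X hX.1, h' g hg X hX.2⟩

lemma Inv.sup {U U' : Submodule ℝ 𝔸} (h : Inv G U) (h' : Inv G U') : Inv G (U ⊔ U') := by
  intro g hg X hX
  obtain ⟨a, ha, b, hb, rfl⟩ := Submodule.mem_sup.1 hX
  rw [mul_add, add_mul]
  exact Submodule.add_mem_sup (h g hg a ha) (h' g hg b hb)

/-- some exponential of `V` acts nontrivially on `V` -/
lemma Irr.exists_exp (hG : IsG G L) (hc : IsPreconnected G) (hV : Irr G L V) (hP : IsP G L V P) :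
    ∃ x ∈ V, ∃ A ∈ V, NormedSpace.exp x * A * star (NormedSpace.exp x) ≠ A := by
  by_contra hcon
  push Not at hcon
  obtain ⟨Y, hY, hY0⟩ := Submodule.exists_mem_ne_zero_of_ne_bot hV.ne
  apply hY0
  refine hV.nofix Y hY fun g hg => ?_
  obtain ⟨n, hn⟩ := generate hG hc one_pos
  obtain ⟨l, _, hl, rfl⟩ := hn g hg
  have key : Eqv V (l.map NormedSpace.exp).prod 1 := by
    have h1 : Eqv V (l.map NormedSpace.exp).prod (l.map fun _ => (1 : 𝔸)).prod := by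
      refine Eqv.list_prod hV.inv _ _ hG l (fun _ _ => hG.one) fun X hX => ?_
      refine (hP.eqv_exp hG hV.le hV.inv (hl X hX).1).trans fun A hA => ?_
      rw [hcon _ (hP.mem X) A hA, star_one, one_mul, mul_one]
    rwa [List.map_const', List.prod_replicate, one_pow] at h1
  have := key Y hY
  rwa [star_one, one_mul, mul_one] at this

lemma Irr.span_cp (hG : IsG G L) (hV : Irr G L V) {z : 𝔸} (hz : z ∈ G) {A : 𝔸} (hA : A ∈ V)
    (hne : z * A * star z ≠ A) :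
    V ≤ Submodule.span ℝ {x | ∃ g ∈ G, ∃ A ∈ V, x = g * (A - z * A * star z) * star g} := by
  have h1 : Submodule.span ℝ {x | ∃ g ∈ G, ∃ A ∈ V, x = g * (A - z * A * star z) * star g} = V := by
    refine hV.mini _ ?_ ?_ ?_
    · rw [Submodule.span_le]
      rintro x ⟨g, hg, B, hB, rfl⟩
      exact hV.inv g hg _ (V.sub_mem hB (hV.inv z hz B hB))
    · refine inv_span ?_
      rintro g hg x ⟨g', hg', B, hB, rfl⟩
      refine ⟨g * g', hG.mul _ hg _ hg', B, hB, ?_⟩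
      rw [star_mul]; noncomm_ring
    · intro h
      rw [Submodule.span_eq_bot] at h
      have := h _ ⟨1, hG.one, A, hA, rfl⟩
      rw [star_one, one_mul, mul_one, sub_eq_zero] at this
      exact hne this.symm
  exact h1.ge

lemma gen_sup (hG : IsG G L) (hc : IsPreconnected G) (hW₁ : W₁ ≤ L) (hI₁ : Inv G W₁)
    (hV : Irr G L V) (hP : IsP G L V P) (hd : W₁ ⊓ V = ⊥) (hgen : Gen G W₁) : Gen G (W₁ ⊔ V) := by
  obtain ⟨z, hz, hz1, hz2⟩ := hgen
  obtain ⟨x, hx, A, hA, hne⟩ := hV.exists_exp hG hc hP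
  have hex : NormedSpace.exp x ∈ G := hG.exp_mem (hV.le hx)
  have hcV : ∀ X ∈ W₁, ∀ Y ∈ V, Commute X Y := fun X hX Y hY =>
    commute_of_disjoint hG hI₁ hV.inv hW₁ hV.le hd hX hY
  have hzV : ∀ Y ∈ V, Commute z Y := fun Y hY => hz1 Y fun X hX => hcV X hX Y hY
  have hxW : ∀ X ∈ W₁, Commute (NormedSpace.exp x) X := fun X hX => exp_commute (hcV X hX x hx).symm
  have hzG : z * NormedSpace.exp x ∈ G := hG.mul _ hz _ hex
  have hact1 : ∀ B ∈ W₁, z * NormedSpace.exp x * B * star (z * NormedSpace.exp x) = z * B * star z := by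
    intro B hB
    have h1 := eqv_one_of_commute (W := W₁) hG hex hxW B hB
    rw [star_one, one_mul, mul_one] at h1
    calc z * NormedSpace.exp x * B * star (z * NormedSpace.exp x) = z * (NormedSpace.exp x * B * star (NormedSpace.exp x)) * star z := by
          rw [star_mul]; noncomm_ring
      _ = _ := by rw [h1]
  have hact2 : ∀ B ∈ V, z * NormedSpace.exp x * B * star (z * NormedSpace.exp x) = NormedSpace.exp x * B * star (NormedSpace.exp x) := by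
    intro B hB
    have h1 := eqv_one_of_commute (W := V) hG hz hzV _ (hV.inv _ hex B hB)
    rw [star_one, one_mul, mul_one] at h1
    calc z * NormedSpace.exp x * B * star (z * NormedSpace.exp x) = z * (NormedSpace.exp x * B * star (NormedSpace.exp x)) * star z := by
          rw [star_mul]; noncomm_ring
      _ = _ := by rw [h1]
  refine ⟨z * NormedSpace.exp x, hzG, ?_, ?_⟩
  · intro Y hY
    have h1 : Commute z Y := hz1 Y fun X hX => hY X (Submodule.mem_sup_left hX)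
    have h2 : Commute (NormedSpace.exp x) Y := exp_commute (hY x (Submodule.mem_sup_right hx))
    exact h1.mul_left h2
  · set U := Submodule.span ℝ {y | ∃ g ∈ G, ∃ A ∈ W₁ ⊔ V,
      y = g * (A - z * NormedSpace.exp x * A * star (z * NormedSpace.exp x)) * star g} with hU
    have hUI : Inv G U := by
      refine inv_span ?_
      rintro g hg y ⟨g', hg', B, hB, rfl⟩
      refine ⟨g * g', hG.mul _ hg _ hg', B, hB, ?_⟩
      rw [star_mul g g']; noncomm_ring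
    refine sup_le (hz2.trans ?_) ?_
    · rw [Submodule.span_le]
      rintro y ⟨g, hg, B, hB, rfl⟩
      refine Submodule.subset_span ⟨g, hg, B, Submodule.mem_sup_left hB, ?_⟩
      rw [hact1 B hB]
    · have h1 : U ⊓ V = V := by
        refine hV.mini _ inf_le_right (hUI.inf hV.inv) ?_
        intro h
        have h2 : A - NormedSpace.exp x * A * star (NormedSpace.exp x) ∈ U ⊓ V := by
          refine ⟨Submodule.subset_span ⟨1, hG.one, A, Submodule.mem_sup_right hA, ?_⟩,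
            V.sub_mem hA (hV.inv _ hex A hA)⟩
          rw [hact2 A hA, star_one, one_mul, mul_one]
        rw [h, Submodule.mem_bot, sub_eq_zero] at h2
        exact hne h2.symm
      exact inf_eq_right.1 h1

/-- the inductive step -/
lemma pp_sup (hG : IsG G L) (hc : IsPreconnected G) (hW₁ : W₁ ≤ L) (hI₁ : Inv G W₁)
    (hP₁ : IsP G L W₁ P₁) (hV : Irr G L V) (hP : IsP G L V P) (hd : W₁ ⊓ V = ⊥) (hgen : Gen G W₁)
    (hpp₁ : PP G L W₁) : PP G L (W₁ ⊔ V) := by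
  have hcV : ∀ X ∈ W₁, ∀ Y ∈ V, Commute X Y := fun X hX Y hY =>
    commute_of_disjoint hG hI₁ hV.inv hW₁ hV.le hd hX hY
  obtain ⟨z₀, hz₀, hz1, hz2⟩ := hgen
  have hz₀V : Eqv V z₀ 1 := eqv_one_of_commute hG hz₀ fun Y hY => hz1 Y fun X hX => hcV X hX Y hY
  obtain ⟨n₁, δ₁, η₁, hδ₁, hη₁, hcp₁⟩ := cp_cover hG hP₁ hW₁ hI₁ hz₀ hz2
  obtain ⟨x, hx, A, hA, hne⟩ := hV.exists_exp hG hc hP
  set g₀ := NormedSpace.exp x with hg₀
  have hg₀G : g₀ ∈ G := hG.exp_mem (hV.le hx)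
  have hg₀W : Eqv W₁ g₀ 1 := eqv_one_of_commute hG hg₀G fun X hX => exp_commute (hcV X hX x hx).symm
  obtain ⟨n₂, δ₂, η₂, hδ₂, hη₂, hcp₂⟩ := cp_cover hG hP hV.le hV.inv hg₀G (hV.span_cp hG hg₀G hA hne)
  obtain ⟨η₃, hη₃, hnear⟩ := near_one hG (δ := δ₁ / (‖P₁‖ + 1)) (by positivity)
  obtain ⟨n₃, hspread⟩ := spread hG hc hP hV.le hV.inv hδ₂
  obtain ⟨K₁, hK₁, ε₁, hε₁, h₁⟩ := hpp₁
  obtain ⟨K₂, hK₂, ε₂, hε₂, h₂⟩ := hV.pp hG hc hP
  set ε := min (min ε₁ ε₂) (min (min η₁ η₃) (η₂ / (2 * n₁ + 1))) with hε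
  have hε0 : 0 < ε := by
    refine lt_min (lt_min hε₁ hε₂) (lt_min (lt_min hη₁ hη₃) ?_)
    positivity
  have hεε₁ : ε ≤ ε₁ := (min_le_left _ _).trans (min_le_left _ _)
  have hεε₂ : ε ≤ ε₂ := (min_le_left _ _).trans (min_le_right _ _)
  have hεη₁ : ε ≤ η₁ := (min_le_right _ _).trans ((min_le_left _ _).trans (min_le_left _ _))
  have hεη₃ : ε ≤ η₃ := (min_le_right _ _).trans ((min_le_left _ _).trans (min_le_right _ _))
  have hεη₂ : ε ≤ η₂ / (2 * n₁ + 1) := (min_le_right _ _).trans (min_le_right _ _)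
  refine ⟨K₁ + n₃ * (n₂ * (4 * K₂ + 2 * (1 + n₁ * (4 * K₁ + 2)))), by positivity, ε, hε0, ?_⟩
  intro q hq t ht hdense
  have hd1 := h₁ q hq t ht fun g hg => by
    obtain ⟨y, hy, hy'⟩ := hdense g hg
    exact ⟨y, hy, hy'.trans_le hεε₁⟩
  have hd2 := h₂ q hq t ht fun g hg => by
    obtain ⟨y, hy, hy'⟩ := hdense g hg
    exact ⟨y, hy, hy'.trans_le hεε₂⟩
  obtain ⟨z, hz, hzz⟩ := hdense z₀ hz₀
  obtain ⟨s, hs, hsg⟩ := hdense g₀ hg₀G
  have hzG := BL.mem hG hz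
  have hsG := BL.mem hG hs
  -- `s` modulo `W₁`
  have hsg1 : s * star g₀ ∈ G := hG.mul _ hsG _ (hG.st _ hg₀G)
  obtain ⟨X, hX, hXδ, hXe⟩ := hnear _ hsg1 (by
    have e : s * star g₀ - 1 = (s - g₀) * star g₀ := by rw [sub_mul, hG.ms _ hg₀G]
    rw [e, hG.isom' _ (hG.st _ hg₀G)]
    exact hsg.trans_le hεη₃)
  have hv₁ : ‖P₁ X‖ < δ₁ := by
    have h3 := P₁.le_opNorm X
    have h4 : ‖P₁‖ * ‖X‖ ≤ (‖P₁‖ + 1) * ‖X‖ := by nlinarith [norm_nonneg X]
    have h5 : (‖P₁‖ + 1) * ‖X‖ < δ₁ := by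
      rw [lt_div_iff₀ (by positivity)] at hXδ
      linarith [mul_comm ‖X‖ (‖P₁‖ + 1)]
    linarith
  have hsX : Eqv W₁ s (NormedSpace.exp (P₁ X)) := by
    have h3 : Eqv W₁ (NormedSpace.exp X * g₀) (NormedSpace.exp (P₁ X) * 1) :=
      Eqv.mul hI₁ hG.one (hP₁.eqv_exp hG hW₁ hI₁ hX) hg₀W
    have h4 : NormedSpace.exp X * g₀ = s := by rw [hXe, mul_assoc, hG.sm _ hg₀G, mul_one]
    rwa [h4, mul_one] at h3
  obtain ⟨l₁, hl₁n, hl₁, hl₁e⟩ := hcp₁ z hzG (hzz.trans_le hεη₁) (P₁ X) (hP₁.mem X) hv₁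
  obtain ⟨l₁', hl₁'n, hl₁', hl₁'e⟩ := cw_replace hG hI₁ (BL L q (K₁ * t)) (fun x hx => BL.mem hG hx)
    hd1 l₁ hl₁
  have hl₁'G : ∀ p ∈ l₁', p.1 ∈ G ∧ p.2 ∈ G := fun p hp =>
    ⟨BL.mem hG (hl₁' p hp).1, BL.mem hG (hl₁' p hp).2⟩
  set w := cw l₁' z with hw
  have hwG : w ∈ G := cw_mem hG hl₁'G hzG
  have hwW : Eqv W₁ w s := ((hl₁'e z hzG).trans hl₁e).trans hsX.symm
  have hwB : w ∈ BL L q (n₁ * (4 * (K₁ * t) + 2 * t)) := by
    have := cw_BL hG hq (by positivity) ht hl₁' hz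
    rwa [hl₁'n, hl₁n] at this
  set q₀ := s * star w with hq₀
  have hq₀G : q₀ ∈ G := hG.mul _ hsG _ (hG.st _ hwG)
  set a₀ := t + n₁ * (4 * (K₁ * t) + 2 * t) with ha₀
  have ha₀0 : 0 ≤ a₀ := by positivity
  have hq₀B : q₀ ∈ BL L q a₀ := BL.mul hs (BL.star hG hq hwB)
  have hq₀W : Eqv W₁ q₀ 1 := by
    have h3 : Eqv W₁ (s * star w) (s * star s) :=
      Eqv.mul hI₁ (hG.st _ hsG) (Eqv.refl _) (Eqv.star hG hI₁ hwG hsG hwW)
    rwa [hG.ms _ hsG] at h3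
  -- `w` modulo `V`
  set ζ := z * star z₀ with hζ
  have hζG : ζ ∈ G := hG.mul _ hzG _ (hG.st _ hz₀)
  have hζn : ‖ζ - 1‖ < ε := by
    have e : ζ - 1 = (z - z₀) * star z₀ := by rw [sub_mul, hG.ms _ hz₀]
    rw [e, hG.isom' _ (hG.st _ hz₀)]
    exact hzz
  have hzζ : Eqv V z ζ := by
    have h3 : Eqv V (ζ * z₀) (ζ * 1) := Eqv.mul hV.inv hG.one (Eqv.refl _) hz₀V
    have h4 : ζ * z₀ = z := by rw [hζ, mul_assoc, hG.sm _ hz₀, mul_one]
    rwa [h4, mul_one] at h3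
  set z' := s * star (cw l₁' ζ) with hz'
  have hcG : cw l₁' ζ ∈ G := cw_mem hG hl₁'G hζG
  have hz'G : z' ∈ G := hG.mul _ hsG _ (hG.st _ hcG)
  have hz'n : ‖z' - g₀‖ < η₂ := by
    have h3 : ‖z' - s‖ ≤ 2 * n₁ * ‖ζ - 1‖ := by
      have e : z' - s = s * (star (cw l₁' ζ) - 1) := by rw [mul_sub, mul_one]
      rw [e, hG.isom _ hsG, hG.norm_star_sub_one hcG]
      have := norm_cw hG hl₁'G hζG
      rwa [hl₁'n, hl₁n] at this
    have h4 : ‖z' - g₀‖ ≤ ‖z' - s‖ + ‖s - g₀‖ := by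
      have e : z' - g₀ = (z' - s) + (s - g₀) := by abel
      rw [e]; exact norm_add_le _ _
    have h5 : (2 * n₁ + 1) * ε ≤ η₂ := by
      rw [le_div_iff₀ (by positivity)] at hεη₂
      linarith [mul_comm ε (2 * n₁ + 1)]
    have h6 : 2 * n₁ * ‖ζ - 1‖ ≤ 2 * n₁ * ε := by
      have := hζn.le
      gcongr
    linarith
  have hq₀z' : Eqv V q₀ z' :=
    Eqv.mul hV.inv (hG.st _ hcG) (Eqv.refl _) (Eqv.star hG hV.inv hwG hcG
      (cw_eqv hG hV.inv hzG hζG hzζ l₁' hl₁'G))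
  -- small elements of `V`
  have hsmall : ∀ v ∈ V, ‖v‖ < δ₂ →
      ∃ r ∈ BL L q (n₂ * (4 * (K₂ * t) + 2 * a₀)) ∩ {y | Eqv W₁ y 1}, Eqv V r (NormedSpace.exp v) := by
    intro v hv hvδ
    obtain ⟨l₂, hl₂n, hl₂, hl₂e⟩ := hcp₂ z' hz'G hz'n v hv hvδ
    obtain ⟨l₂', hl₂'n, hl₂', hl₂'e⟩ := cw_replace hG hV.inv (BL L q (K₂ * t))
      (fun x hx => BL.mem hG hx) hd2 l₂ hl₂
    have hl₂'G : ∀ p ∈ l₂', p.1 ∈ G ∧ p.2 ∈ G := fun p hp =>
      ⟨BL.mem hG (hl₂' p hp).1, BL.mem hG (hl₂' p hp).2⟩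
    refine ⟨cw l₂' q₀, ⟨?_, ?_⟩, ?_⟩
    · have := cw_BL hG hq (by positivity) ha₀0 hl₂' hq₀B
      rwa [hl₂'n, hl₂n] at this
    · have := cw_eqv hG hI₁ hq₀G hG.one hq₀W l₂' hl₂'G
      rwa [cw_one hG l₂' hl₂'G] at this
    · exact ((cw_eqv hG hV.inv hq₀G hz'G hq₀z' l₂' hl₂'G).trans (hl₂'e z' hz'G)).trans hl₂e
  have hall := hspread (fun a => BL L q a ∩ {y | Eqv W₁ y 1}) (fun a y hy => BL.mem hG hy.1)
    (fun a b hab y hy => ⟨BL.mono hab hy.1, hy.2⟩) ⟨BL.one le_rfl, Eqv.refl _⟩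
    (fun a b y y' hy hy' => ⟨BL.mul hy.1 hy'.1, by
      have := Eqv.mul hI₁ hG.one hy.2 hy'.2
      rwa [mul_one] at this⟩) _ (by positivity) hsmall
  intro g hg
  obtain ⟨s₁, hs₁, hs₁e⟩ := hd1 g hg
  have hs₁G := BL.mem hG hs₁
  have hgg : star s₁ * g ∈ G := hG.mul _ (hG.st _ hs₁G) _ hg
  obtain ⟨r, ⟨hr1, hr2⟩, hr3⟩ := hall (star s₁ * g) hgg
  refine ⟨s₁ * r, ?_, Eqv.sup ?_ ?_⟩
  · refine BL.mono (le_of_eq ?_) (BL.mul hs₁ hr1)
    rw [ha₀]; ring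
  · have := Eqv.mul hI₁ hG.one hs₁e hr2
    rwa [mul_one] at this
  · have h3 := Eqv.mul hV.inv hgg (Eqv.refl s₁) hr3
    have h4 : s₁ * (star s₁ * g) = g := by rw [← mul_assoc, hG.ms _ hs₁G, one_mul]
    rwa [h4] at h3

/-- the induction over invariant subspaces without fixed vectors -/
lemma gen_pp (hG : IsG G L) (hc : IsPreconnected G) (hCR : CR G L) :
    ∀ (n : ℕ) (W : Submodule ℝ 𝔸), Module.finrank ℝ W = n → W ≤ L → Inv G W →
      (∀ X ∈ W, (∀ g ∈ G, g * X * star g = X) → X = 0) → Gen G W ∧ PP G L W := by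
  intro n
  induction n using Nat.strong_induction_on with
  | _ n ih =>
  intro W hn hWL hWI hfix
  by_cases hbot : W = ⊥
  · subst hbot
    refine ⟨⟨1, hG.one, fun Y _ => Commute.one_left Y, bot_le⟩, 0, le_rfl, 1, one_pos, ?_⟩
    intro q _ t _ _ g _
    refine ⟨1, BL.one (by simp), ?_⟩
    intro Y hY
    rw [Submodule.mem_bot] at hY
    subst hY
    simp
  -- minimal invariant subspace
  obtain ⟨V, hVW, hV⟩ : ∃ V ≤ W, Irr G L V := by
    classical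
    have hex : ∃ k : ℕ, ∃ V : Submodule ℝ 𝔸, V ≤ W ∧ Inv G V ∧ V ≠ ⊥ ∧ Module.finrank ℝ V = k :=
      ⟨_, W, le_rfl, hWI, hbot, rfl⟩
    obtain ⟨V, h1, h2, h3, h4⟩ := Nat.find_spec hex
    refine ⟨V, h1, h1.trans hWL, h2, h3, ?_, fun X hX => hfix X (h1 hX)⟩
    intro U hU hUI hU0
    have h5 : Nat.find hex ≤ Module.finrank ℝ U :=
      Nat.find_min' hex ⟨U, hU.trans h1, hUI, hU0, rfl⟩
    exact Submodule.eq_of_le_of_finrank_le hU (by rw [h4]; exact h5)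
  obtain ⟨P, hP⟩ := hCR V hV.le hV.inv
  set W₁ := W ⊓ Ker L P with hW₁
  have hW₁L : W₁ ≤ L := inf_le_left.trans hWL
  have hI₁ : Inv G W₁ := hWI.inf (hP.inv_Ker hG)
  have hd : W₁ ⊓ V = ⊥ := by
    rw [eq_bot_iff, ← hP.inf_Ker]
    exact le_inf inf_le_right (inf_le_left.trans inf_le_right)
  have hsup : W₁ ⊔ V = W := by
    refine le_antisymm (sup_le inf_le_left hVW) ?_
    intro X hX
    have e : X = (X - P X) + P X := by abel
    rw [e]
    exact Submodule.add_mem_sup ⟨W.sub_mem hX (hVW (hP.mem X)), hP.sub_mem_Ker hV.le (hWL hX)⟩ (hP.mem X)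
  have hlt : Module.finrank ℝ W₁ < n := by
    rw [← hn]
    refine Submodule.finrank_lt_finrank_of_lt (lt_of_le_of_ne inf_le_left ?_)
    intro h
    apply hV.ne
    rw [eq_bot_iff, ← hd]
    exact le_inf (hVW.trans h.ge) le_rfl
  obtain ⟨hg₁, hp₁⟩ := ih _ hlt W₁ rfl hW₁L hI₁ fun X hX => hfix X hX.1
  obtain ⟨P₁, hP₁⟩ := hCR W₁ hW₁L hI₁
  rw [← hsup]
  exact ⟨gen_sup hG hc hW₁L hI₁ hV hP hd hg₁, pp_sup hG hc hW₁L hI₁ hP₁ hV hP hd hg₁ hp₁⟩

/-- **commutators lie in a bounded multiple of a dense length ball** -/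
theorem commutators_mem (hG : IsG G L) (hc : IsPreconnected G) (hCR : CR G L) :
    ∃ K : ℝ, 0 ≤ K ∧ ∃ ε > 0, ∀ q : 𝔸 → ℝ, IsLen L q → ∀ t : ℝ, 0 ≤ t →
      (∀ g ∈ G, ∃ s ∈ BL L q t, ‖s - g‖ < ε) →
      ∀ a ∈ G, ∀ b ∈ G, a * b * star a * star b ∈ BL L q (K * t) := by
  obtain ⟨Z, hZ⟩ : ∃ Z : Submodule ℝ 𝔸, ∀ X, X ∈ Z ↔ X ∈ L ∧ ∀ g ∈ G, g * X * star g = X := by
    refine ⟨{ carrier := {X | X ∈ L ∧ ∀ g ∈ G, g * X * star g = X}
              add_mem' := ?_, zero_mem' := ?_, smul_mem' := ?_ }, fun X => Iff.rfl⟩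
    · rintro X Y ⟨h1, h2⟩ ⟨h3, h4⟩
      exact ⟨L.add_mem h1 h3, fun g hg => by rw [mul_add, add_mul, h2 g hg, h4 g hg]⟩
    · exact ⟨L.zero_mem, fun g _ => by simp⟩
    · rintro c X ⟨h1, h2⟩
      exact ⟨L.smul_mem c h1, fun g hg => by rw [mul_smul_comm, smul_mul_assoc, h2 g hg]⟩
  have hZL : Z ≤ L := fun X hX => ((hZ X).1 hX).1
  have hZI : Inv G Z := fun g hg X hX => by rw [((hZ X).1 hX).2 g hg]; exact hX
  obtain ⟨P, hP⟩ := hCR Z hZL hZI
  obtain ⟨_, K, hK, ε, hε, h⟩ := gen_pp hG hc hCR _ (Ker L P) rfl inf_le_left (hP.inv_Ker hG)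
    (fun X hX hfix => by
      have h1 : X ∈ Z := (hZ X).2 ⟨(mem_Ker.1 hX).1, hfix⟩
      rw [← hP.id X h1]
      exact (mem_Ker.1 hX).2)
  have hdec : ∀ X ∈ L, X ∈ Ker L P ⊔ Z := by
    intro X hX
    have e : X = (X - P X) + P X := by abel
    rw [e]
    exact Submodule.add_mem_sup (hP.sub_mem_Ker hZL hX) (hP.mem X)
  refine ⟨4 * K, by positivity, ε, hε, fun q hq t ht hd a ha b hb => ?_⟩
  have hex : ∀ g ∈ G, ∃ s ∈ BL L q (K * t), ∀ x ∈ G, Commute (star s * g) x := by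
    intro g hg
    obtain ⟨s, hs, hsg⟩ := h q hq t ht hd g hg
    have hsG := BL.mem hG hs
    refine ⟨s, hs, ?_⟩
    have h1 : Eqv (Ker L P ⊔ Z) s g := Eqv.sup hsg fun Y hY => by
      rw [((hZ Y).1 hY).2 s hsG, ((hZ Y).1 hY).2 g hg]
    have hInv : Inv G (Ker L P ⊔ Z) := (hP.inv_Ker hG).sup hZI
    have h2 : Eqv (Ker L P ⊔ Z) (star s * g) 1 := by
      have := Eqv.mul hInv hsG (Eqv.refl (star s)) h1.symm
      rwa [hG.sm _ hsG] at this
    have hcG : star s * g ∈ G := hG.mul _ (hG.st _ hsG) _ hg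
    obtain ⟨n, hn⟩ := generate hG hc one_pos
    intro x hx
    obtain ⟨l, _, hl, rfl⟩ := hn x hx
    refine Commute.list_prod_right _ _ fun y hy => ?_
    obtain ⟨X, hX, rfl⟩ := List.mem_map.1 hy
    exact (exp_commute (commute_of_eqv_one hG hcG h2 (hdec X (hl X hX).1)).symm).symm
  obtain ⟨s, hs, hsa⟩ := hex a ha
  obtain ⟨s', hs', hsb⟩ := hex b hb
  have hsG := BL.mem hG hs
  have hsG' := BL.mem hG hs'
  set c := star s * a with hcdef
  set c' := star s' * b with hc'def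
  have hcG : c ∈ G := hG.mul _ (hG.st _ hsG) _ ha
  have hcG' : c' ∈ G := hG.mul _ (hG.st _ hsG') _ hb
  have ea : a = s * c := by rw [hcdef, ← mul_assoc, hG.ms _ hsG, one_mul]
  have eb : b = s' * c' := by rw [hc'def, ← mul_assoc, hG.ms _ hsG', one_mul]
  have e : a * b * star a * star b = s * s' * star s * star s' := by
    clear_value c c'
    rw [ea, eb, star_mul, star_mul]
    have h1 : c * s' = s' * c := (hsa s' hsG').eq
    have h2 : c * c' = c' * c := (hsa c' hcG').eq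
    have h3 : c' * star s = star s * c' := (hsb _ (hG.st _ hsG)).eq
    calc s * c * (s' * c') * (star c * star s) * (star c' * star s')
        = s * (c * s') * c' * star c * star s * star c' * star s' := by noncomm_ring
      _ = s * s' * (c * c') * star c * star s * star c' * star s' := by rw [h1]; noncomm_ring
      _ = s * s' * c' * (c * star c) * star s * star c' * star s' := by rw [h2]; noncomm_ring
      _ = s * s' * (c' * star s) * star c' * star s' := by rw [hG.ms _ hcG]; noncomm_ring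
      _ = s * s' * star s * (c' * star c') * star s' := by rw [h3]; noncomm_ring
      _ = _ := by rw [hG.ms _ hcG']; noncomm_ring
  rw [e]
  refine BL.mono (le_of_eq ?_) (BL.mul (BL.mul (BL.mul hs hs') (BL.star hG hq hs)) (BL.star hG hq hs'))
  ring

end Pool.Agent.W544.EG
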