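import Mathlib

/-!
# Left-invariant metrics on compact connected (matrix) Lie groups: definitions

Definitions for `MP_326c77_gt` (the EGS conjecture `sup λ₁ diam² < ∞`).
A compact connected Lie group is (Peter–Weyl) a closed connected subgroup of some `U(N)`.
-/

open Matrix
open scoped Matrix.Norms.Frobenius ContDiff

namespace Pool.Agent.W544.EG

/-- complex `N × N` matrices -/
abbrev Mat (N : ℕ) := Matrix (Fin N) (Fin N) ℂ

variable {N m : ℕ} {G : Subgroup (unitaryGroup (Fin N) ℂ)}

/-- The Lie algebra of a subgroup `G` of `U(N)`: the matrices `X` with `exp (tX) ∈ G` for all real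
`t`. -/
def LieAlg (G : Subgroup (unitaryGroup (Fin N) ℂ)) : Set (Mat N) :=
  {X | ∀ t : ℝ, ∃ u ∈ G, ((u : unitaryGroup (Fin N) ℂ) : Mat N) = NormedSpace.exp (t • X)}

/-- A left-invariant Riemannian metric on `G`, given by an orthonormal basis `X` of the Lie algebra
(every inner product on the Lie algebra has one, and every basis is orthonormal for exactly one
inner product). -/
structure LeftInvMetric (G : Subgroup (unitaryGroup (Fin N) ℂ)) (m : ℕ) where
  /-- the orthonormal basis -/
  X : Fin m → Mat N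
  indep : LinearIndependent ℝ X
  span_eq : (Submodule.span ℝ (Set.range X) : Set (Mat N)) = LieAlg G

/-- `Joined g x y ℓ`: there is a piecewise `C¹` curve in `G` from `x` to `y` of `g`-length `ℓ`.
The velocity of the curve `c` is `c'(t) = c(t) · ∑ vᵢ(t) Xᵢ`, of `g`-norm `√∑ vᵢ(t)²`. -/
inductive Joined (g : LeftInvMetric G m) : Mat N → Mat N → ℝ → Prop
  | curve (c : ℝ → Mat N) (v : ℝ → EuclideanSpace ℝ (Fin m)) (hv : Continuous v)
      (hG : ∀ t ∈ Set.Icc (0 : ℝ) 1, ∃ u ∈ G, ((u : unitaryGroup (Fin N) ℂ) : Mat N) = c t)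
      (hc : ∀ t ∈ Set.Icc (0 : ℝ) 1, HasDerivAt c (c t * ∑ i, v t i • g.X i) t) :
      Joined g (c 0) (c 1) (∫ t in (0 : ℝ)..1, ‖v t‖)
  | trans {x y z : Mat N} {a b : ℝ} (h : Joined g x y a) (h' : Joined g y z b) :
      Joined g x z (a + b)

/-- the Riemannian distance -/
noncomputable def dist (g : LeftInvMetric G m) (x y : Mat N) : ℝ := sInf {ℓ | Joined g x y ℓ}

/-- the diameter of `(G, g)` -/
noncomputable def diam (g : LeftInvMetric G m) : ℝ :=
  sSup {d | ∃ x ∈ G, ∃ y ∈ G, d = dist g (x : unitaryGroup (Fin N) ℂ) (y : unitaryGroup (Fin N) ℂ)}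

/-- `lam` is an eigenvalue of the Laplace–Beltrami operator `Δ f = - ∑ Xᵢ² f` of `(G, g)`, where
`(Xᵢ f)(x) = d/dt f (x exp (t Xᵢ))` (compact groups are unimodular, so this is the Laplace–Beltrami
operator).  The eigenfunction is the restriction of a smooth function of the matrix. -/
def IsEigenvalue (g : LeftInvMetric G m) (lam : ℝ) : Prop :=
  ∃ f : Mat N → ℝ, ContDiff ℝ ∞ f ∧
    (∃ x ∈ G, f ((x : unitaryGroup (Fin N) ℂ) : Mat N) ≠ 0) ∧
    ∀ x ∈ G, -∑ i, iteratedDeriv 2
      (fun t : ℝ => f (((x : unitaryGroup (Fin N) ℂ) : Mat N) * NormedSpace.exp (t • g.X i))) 0 =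
        lam * f ((x : unitaryGroup (Fin N) ℂ) : Mat N)

/-- the smallest positive eigenvalue of the Laplace–Beltrami operator -/
noncomputable def lambda1 (g : LeftInvMetric G m) : ℝ := sInf {lam | 0 < lam ∧ IsEigenvalue g lam}

end Pool.Agent.W544.EG
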