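import Mathlib
import Pool.Agent.W544.EG.Defs

/-!
# Interfaces between the parts of the proof (statements only, as `Prop`s)
-/

open Matrix MeasureTheory
open scoped Matrix.Norms.Frobenius ContDiff

namespace Pool.Agent.W544.EG

variable {N m : ℕ} {G : Subgroup (unitaryGroup (Fin N) ℂ)}

/-- products of exponentials of total length `≤ t` -/
def Ball (g : LeftInvMetric G m) (t : ℝ) : Set (Mat N) :=
  {x | ∃ l : List (EuclideanSpace ℝ (Fin m)),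
    (l.map fun a => NormedSpace.exp (∑ i, a i • g.X i)).prod = x ∧ (l.map fun a => ‖a‖).sum ≤ t}

/-- R: a function on `G` which is 1-Lipschitz along the one-parameter groups `exp (t Xᵢ)` and has
variance `≥ V` gives a positive eigenvalue `≤ 2 m / V` -/
def S_R : Prop :=
  ∀ (N m : ℕ) (G : Subgroup (unitaryGroup (Fin N) ℂ)) (_ : IsClosed (G : Set (unitaryGroup (Fin N) ℂ)))
    (_ : IsConnected (G : Set (unitaryGroup (Fin N) ℂ))) (g : LeftInvMetric G m)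
    [MeasurableSpace G] [BorelSpace G] (μ : Measure G) [IsProbabilityMeasure μ]
    [μ.IsMulRightInvariant] [μ.IsOpenPosMeasure] (f : G → ℝ) (_ : Continuous f)
    (_ : ∀ (x y : G) (i : Fin m) (t : ℝ),
      ((y : unitaryGroup (Fin N) ℂ) : Mat N) =
        ((x : unitaryGroup (Fin N) ℂ) : Mat N) * NormedSpace.exp (t • g.X i) → |f y - f x| ≤ |t|)
    (V : ℝ) (_ : 0 < V) (_ : V ≤ ∫ x, (f x - ∫ z, f z ∂μ) ^ 2 ∂μ),
    ∃ lam : ℝ, 0 < lam ∧ lam * V ≤ 2 * m ∧ IsEigenvalue g lam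

/-- TS: two sets of measure `≥ v` at distance `≥ T` give an eigenvalue `≤ 4 m / (v T²)` -/
def S_TS : Prop :=
  ∀ (N m : ℕ) (G : Subgroup (unitaryGroup (Fin N) ℂ)) (_ : IsClosed (G : Set (unitaryGroup (Fin N) ℂ)))
    (_ : IsConnected (G : Set (unitaryGroup (Fin N) ℂ))) (g : LeftInvMetric G m)
    [MeasurableSpace G] [BorelSpace G] (μ : Measure G) [IsProbabilityMeasure μ]
    [μ.IsMulRightInvariant] [μ.IsOpenPosMeasure] (U U' : Set G)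
    (_ : MeasurableSet U) (_ : MeasurableSet U') (T v : ℝ) (_ : 0 < T) (_ : 0 < v)
    (_ : v ≤ μ.real U) (_ : v ≤ μ.real U')
    (_ : ∀ u ∈ U, ∀ u' ∈ U', ∀ s < T, (((u⁻¹ * u' : G) : unitaryGroup (Fin N) ℂ) : Mat N) ∉ Ball g s),
    ∃ lam : ℝ, 0 < lam ∧ lam * (v * T ^ 2) ≤ 4 * m ∧ IsEigenvalue g lam

/-- D: the commutator subgroup is closed, of finite commutator width, and contains the
exponentials of the semisimple part of the Lie algebra (`p` = projection to the centre) -/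
def S_D : Prop :=
  ∀ (N : ℕ) (G : Subgroup (unitaryGroup (Fin N) ℂ)) (_ : IsClosed (G : Set (unitaryGroup (Fin N) ℂ)))
    (_ : IsConnected (G : Set (unitaryGroup (Fin N) ℂ))),
    ∃ (M : ℕ) (p : Mat N →ₗ[ℝ] Mat N),
      (∀ X ∈ LieAlg G, p X ∈ LieAlg G ∧
        ∀ u ∈ G, ((u : unitaryGroup (Fin N) ℂ) : Mat N) * p X = p X * (u : unitaryGroup (Fin N) ℂ)) ∧
      (∀ X ∈ LieAlg G, ∃ d ∈ ⁅G, G⁆,
        ((d : unitaryGroup (Fin N) ℂ) : Mat N) = NormedSpace.exp (X - p X)) ∧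
      IsClosed ((⁅G, G⁆ : Subgroup (unitaryGroup (Fin N) ℂ)) : Set (unitaryGroup (Fin N) ℂ)) ∧
      ∀ d ∈ ⁅G, G⁆, ∃ l : List (unitaryGroup (Fin N) ℂ × unitaryGroup (Fin N) ℂ),
        l.length ≤ M ∧ (∀ q ∈ l, q.1 ∈ G ∧ q.2 ∈ G) ∧ 
          (l.map fun q => q.1 * q.2 * q.1⁻¹ * q.2⁻¹).prod = d

/-- T: the torus `G / [G,G]`: with `θ a = exp (p (∑ aᵢ Xᵢ))`, if `G` is not covered by
`{θ a · d : ‖a‖ ≤ r, d ∈ [G,G]}` then there is an eigenvalue `≤ C / r²` (`C` depending on `G`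
only) -/
def S_T : Prop :=
  ∀ (N : ℕ) (G : Subgroup (unitaryGroup (Fin N) ℂ)) (_ : IsClosed (G : Set (unitaryGroup (Fin N) ℂ)))
    (_ : IsConnected (G : Set (unitaryGroup (Fin N) ℂ))) (p : Mat N →ₗ[ℝ] Mat N)
    (_ : ∀ X ∈ LieAlg G, p X ∈ LieAlg G ∧
        ∀ u ∈ G, ((u : unitaryGroup (Fin N) ℂ) : Mat N) * p X = p X * (u : unitaryGroup (Fin N) ℂ))
    (_ : ∀ X ∈ LieAlg G, ∃ d ∈ ⁅G, G⁆,
        ((d : unitaryGroup (Fin N) ℂ) : Mat N) = NormedSpace.exp (X - p X))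
    (_ : IsClosed ((⁅G, G⁆ : Subgroup (unitaryGroup (Fin N) ℂ)) : Set (unitaryGroup (Fin N) ℂ))),
    ∃ C : ℝ, ∀ (m : ℕ) (g : LeftInvMetric G m) (r : ℝ), 0 < r →
      (∃ x ∈ G, ∀ a : EuclideanSpace ℝ (Fin m), ‖a‖ ≤ r → ∀ d ∈ ⁅G, G⁆,
        ((x : unitaryGroup (Fin N) ℂ) : Mat N) ≠
          NormedSpace.exp (p (∑ i, a i • g.X i)) * (d : unitaryGroup (Fin N) ℂ)) →
      ∃ lam : ℝ, 0 < lam ∧ lam * r ^ 2 ≤ C ∧ IsEigenvalue g lam

end Pool.Agent.W544.EG
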