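import Mathlib
import Pool.Agent.W544.EG.Step
import Pool.Agent.W544.EG.Stubs

/-!
# Closed subgroups of `U(N)` fit the abstract setting
-/

open Matrix Filter Topology
open scoped Matrix.Norms.Frobenius ContDiff

namespace Pool.Agent.W544.EG

set_option linter.unusedSectionVars false
set_option linter.style.haveILetI false

variable {N m : ℕ} {G : Subgroup (unitaryGroup (Fin N) ℂ)}

/-- the set of matrices of a subgroup -/
def Gs (G : Subgroup (unitaryGroup (Fin N) ℂ)) : Set (Mat N) :=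
  {x | ∃ u ∈ G, ((u : unitaryGroup (Fin N) ℂ) : Mat N) = x}

lemma fro_sq (A : Mat N) : ‖A‖ ^ 2 = (trace (Aᴴ * A)).re := by
  rw [Matrix.frobenius_norm_def]
  have h0 : 0 ≤ ∑ i, ∑ j, ‖A i j‖ ^ (2 : ℝ) := by positivity
  rw [← Real.rpow_natCast, ← Real.rpow_mul h0]
  norm_num
  rw [trace, Complex.re_sum, Finset.sum_comm]
  refine Finset.sum_congr rfl fun j _ => ?_
  rw [diag_apply, mul_apply, Complex.re_sum]
  refine Finset.sum_congr rfl fun i _ => ?_
  rw [conjTranspose_apply]
  simp [Complex.sq_norm, Complex.normSq_apply]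

/-- the real inner product `Re tr (Aᴴ B)` -/
noncomputable abbrev ipsM (N : ℕ) : InnerProductSpace ℝ (Mat N) where
  toNormedSpace := inferInstance
  inner A B := (trace (Aᴴ * B)).re
  norm_sq_eq_re_inner A := by
    rw [fro_sq]; rfl
  conj_inner_symm A B := by
    have h : trace (Aᴴ * B) = star (trace (Bᴴ * A)) := by
      rw [← trace_conjTranspose, conjTranspose_mul, conjTranspose_conjTranspose]
    show (trace (Bᴴ * A)).re = (trace (Aᴴ * B)).re
    rw [h]
    simp
  add_left A B D := by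
    show (trace ((A + B)ᴴ * D)).re = _
    rw [conjTranspose_add, add_mul, trace_add, Complex.add_re]
  smul_left A B r := by
    show (trace ((r • A)ᴴ * B)).re = r * (trace (Aᴴ * B)).re
    rw [conjTranspose_smul, smul_mul_assoc, trace_smul]
    simp

lemma unit_sm (u : unitaryGroup (Fin N) ℂ) : star (u : Mat N) * (u : Mat N) = 1 :=
  Matrix.mem_unitaryGroup_iff'.1 u.2

lemma unit_ms (u : unitaryGroup (Fin N) ℂ) : (u : Mat N) * star (u : Mat N) = 1 :=
  Matrix.mem_unitaryGroup_iff.1 u.2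

lemma norm_unit_mul (u : unitaryGroup (Fin N) ℂ) (A : Mat N) : ‖(u : Mat N) * A‖ = ‖A‖ := by
  have h : ‖(u : Mat N) * A‖ ^ 2 = ‖A‖ ^ 2 := by
    rw [fro_sq, fro_sq, conjTranspose_mul]
    congr 2
    have := unit_sm u
    rw [star_eq_conjTranspose] at this
    calc Aᴴ * (u : Mat N)ᴴ * ((u : Mat N) * A) = Aᴴ * ((u : Mat N)ᴴ * (u : Mat N)) * A := by
          simp only [Matrix.mul_assoc]
      _ = _ := by rw [this, Matrix.mul_one]
  exact (pow_left_inj₀ (norm_nonneg _) (norm_nonneg _) two_ne_zero).1 h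

lemma norm_mul_unit (u : unitaryGroup (Fin N) ℂ) (A : Mat N) : ‖A * (u : Mat N)‖ = ‖A‖ := by
  have h : ‖A * (u : Mat N)‖ ^ 2 = ‖A‖ ^ 2 := by
    rw [fro_sq, fro_sq, conjTranspose_mul]
    congr 1
    have := unit_ms u
    rw [star_eq_conjTranspose] at this
    calc trace ((u : Mat N)ᴴ * Aᴴ * (A * (u : Mat N))) = trace ((u : Mat N)ᴴ * (Aᴴ * A * (u : Mat N))) := by
          simp only [Matrix.mul_assoc]
      _ = trace (Aᴴ * A * (u : Mat N) * (u : Mat N)ᴴ) := by rw [trace_mul_comm]
      _ = _ := by rw [Matrix.mul_assoc (Aᴴ * A), this, Matrix.mul_one]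
  exact (pow_left_inj₀ (norm_nonneg _) (norm_nonneg _) two_ne_zero).1 h

lemma Gs_closed (hc : IsClosed (G : Set (unitaryGroup (Fin N) ℂ))) : IsClosed (Gs G) := by
  have hc' : IsClosed ((Matrix.unitaryGroup (Fin N) ℂ : Set (Mat N))) := isClosed_unitary
  have h2 := hc'.isClosedEmbedding_subtypeVal.isClosedMap _ hc
  convert h2 using 1
  ext x
  exact Iff.rfl

lemma isG (hc : IsClosed (G : Set (unitaryGroup (Fin N) ℂ))) {L : Submodule ℝ (Mat N)}
    (hL : (L : Set (Mat N)) = LieAlg G) : IsG (Gs G) L where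
  one := ⟨1, G.one_mem, rfl⟩
  mul := by
    rintro _ ⟨u, hu, rfl⟩ _ ⟨v, hv, rfl⟩
    exact ⟨u * v, G.mul_mem hu hv, rfl⟩
  st := by
    rintro _ ⟨u, hu, rfl⟩
    exact ⟨u⁻¹, G.inv_mem hu, rfl⟩
  sm := by
    rintro _ ⟨u, hu, rfl⟩
    exact unit_sm u
  ms := by
    rintro _ ⟨u, hu, rfl⟩
    exact unit_ms u
  isom := by
    rintro _ ⟨u, hu, rfl⟩ a
    exact norm_unit_mul u a
  isom' := by
    rintro _ ⟨u, hu, rfl⟩ a
    exact norm_mul_unit u a
  closed := Gs_closed hc
  lie := by
    intro X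
    have : X ∈ L ↔ X ∈ LieAlg G := by rw [← hL]; rfl
    rw [this]
    rfl

lemma Gs_conn (hc : IsConnected (G : Set (unitaryGroup (Fin N) ℂ))) : IsPreconnected (Gs G) := by
  have h := hc.isPreconnected.image (fun u : unitaryGroup (Fin N) ℂ => (u : Mat N))
    continuous_subtype_val.continuousOn
  exact h

lemma cr {L : Submodule ℝ (Mat N)} : CR (Gs G) L := by
  intro W _ hI
  letI := ipsM N
  refine ⟨W.starProjection, fun X => W.starProjection_apply_mem X,
    fun X hX => Submodule.starProjection_eq_self_iff.2 hX, ?_⟩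
  rintro _ ⟨u, hu, rfl⟩ X _
  refine Submodule.eq_starProjection_of_mem_of_inner_eq_zero ?_ ?_
  · exact hI _ ⟨u, hu, rfl⟩ _ (W.starProjection_apply_mem X)
  · intro w hw
    have hsm := unit_sm u
    have hms := unit_ms u
    have e1 : (u : Mat N) * X * star (u : Mat N) - (u : Mat N) * W.starProjection X * star (u : Mat N) =
        (u : Mat N) * (X - W.starProjection X) * star (u : Mat N) := by noncomm_ring
    rw [e1]
    have hw' : star (u : Mat N) * w * (u : Mat N) ∈ W := by
      have := hI _ ⟨u⁻¹, G.inv_mem hu, rfl⟩ w hw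
      have e2 : ((u⁻¹ : unitaryGroup (Fin N) ℂ) : Mat N) = star (u : Mat N) := rfl
      rwa [e2, star_star] at this
    have h3 := W.starProjection_inner_eq_zero X _ hw'
    have key : ∀ A B : Mat N, (inner ℝ ((u : Mat N) * A * star (u : Mat N)) B : ℝ) =
        inner ℝ A (star (u : Mat N) * B * (u : Mat N)) := by
      intro A B
      show (trace (((u : Mat N) * A * star (u : Mat N))ᴴ * B)).re =
        (trace (Aᴴ * (star (u : Mat N) * B * (u : Mat N)))).re
      congr 1
      rw [conjTranspose_mul, conjTranspose_mul, star_eq_conjTranspose, conjTranspose_conjTranspose]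
      calc trace ((u : Mat N) * (Aᴴ * (u : Mat N)ᴴ) * B)
          = trace ((u : Mat N) * (Aᴴ * (u : Mat N)ᴴ * B)) := by simp only [Matrix.mul_assoc]
        _ = trace (Aᴴ * (u : Mat N)ᴴ * B * (u : Mat N)) := by rw [trace_mul_comm]
        _ = _ := by simp only [Matrix.mul_assoc]
    rw [key]
    exact h3

end Pool.Agent.W544.EG
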