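import Mathlib
import Pool.Agent.W544.EG.MatG
import Pool.Agent.W345.EGT4
import Pool.Agent.W641.EGSTS

/-!
# Assembly of the proof of the EGS conjecture
-/

open Matrix Filter Topology MeasureTheory
open scoped Matrix.Norms.Frobenius ContDiff

namespace Pool.Agent.W544.EG

set_option linter.unusedSectionVars false
set_option linter.style.haveILetI false

variable {N m : ℕ} {G : Subgroup (unitaryGroup (Fin N) ℂ)}

/-- linear combination of the basis -/
noncomputable def comb (g : LeftInvMetric G m) : EuclideanSpace ℝ (Fin m) →ₗ[ℝ] Mat N where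
  toFun a := ∑ i, a i • g.X i
  map_add' a b := by
    simp only [PiLp.add_apply, add_smul, Finset.sum_add_distrib]
  map_smul' c a := by
    simp only [PiLp.smul_apply, smul_eq_mul, mul_smul, Finset.smul_sum, RingHom.id_apply]

lemma comb_inj (g : LeftInvMetric G m) : Function.Injective (comb g) := by
  rw [← LinearMap.ker_eq_bot, LinearMap.ker_eq_bot']
  intro a ha
  have h := Fintype.linearIndependent_iff.1 g.indep (fun i => a i) ha
  ext i
  exact h i

/-- a left inverse of `comb` -/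
noncomputable def crd (g : LeftInvMetric G m) : Mat N →ₗ[ℝ] EuclideanSpace ℝ (Fin m) :=
  Classical.choose (LinearMap.exists_leftInverse_of_injective (comb g) (LinearMap.ker_eq_bot.2 (comb_inj g)))

lemma crd_comb (g : LeftInvMetric G m) (a : EuclideanSpace ℝ (Fin m)) : crd g (comb g a) = a := by
  have := Classical.choose_spec
    (LinearMap.exists_leftInverse_of_injective (comb g) (LinearMap.ker_eq_bot.2 (comb_inj g)))
  exact LinearMap.congr_fun this a

/-- the norm of the metric, extended to all matrices -/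
noncomputable def qn (g : LeftInvMetric G m) (X : Mat N) : ℝ := ‖crd g X‖

lemma qn_comb (g : LeftInvMetric G m) (a : EuclideanSpace ℝ (Fin m)) : qn g (comb g a) = ‖a‖ := by
  rw [qn, crd_comb]

lemma mem_lie_iff (g : LeftInvMetric G m) {L : Submodule ℝ (Mat N)} (hL : (L : Set (Mat N)) = LieAlg G)
    {X : Mat N} : X ∈ L ↔ ∃ a, comb g a = X := by
  have h1 : X ∈ L ↔ X ∈ Submodule.span ℝ (Set.range g.X) := by
    rw [← SetLike.mem_coe, hL, ← g.span_eq]; rfl
  rw [h1, Submodule.mem_span_range_iff_exists_fun]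
  constructor
  · rintro ⟨c, hc⟩
    exact ⟨WithLp.toLp 2 c, hc⟩
  · rintro ⟨a, ha⟩
    exact ⟨fun i => a i, ha⟩

lemma comb_crd (g : LeftInvMetric G m) {L : Submodule ℝ (Mat N)} (hL : (L : Set (Mat N)) = LieAlg G)
    {X : Mat N} (hX : X ∈ L) : comb g (crd g X) = X := by
  obtain ⟨a, rfl⟩ := (mem_lie_iff g hL).1 hX
  rw [crd_comb]

lemma isLen (g : LeftInvMetric G m) (L : Submodule ℝ (Mat N)) : IsLen L (qn g) where
  nonneg X _ := norm_nonneg _
  smul c X _ := by rw [qn, map_smul, norm_smul, Real.norm_eq_abs]; rfl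

lemma ball_sub_BL (g : LeftInvMetric G m) {L : Submodule ℝ (Mat N)}
    (hL : (L : Set (Mat N)) = LieAlg G) {s t : ℝ} (hst : s ≤ t) : Ball g s ⊆ BL L (qn g) t := by
  rintro x ⟨l, rfl, hl⟩
  refine ⟨l.map (comb g), ?_, ?_, ?_⟩
  · intro X hX
    obtain ⟨a, _, rfl⟩ := List.mem_map.1 hX
    exact (mem_lie_iff g hL).2 ⟨a, rfl⟩
  · rw [List.map_map]
    rfl
  · rw [List.map_map]
    refine le_trans (le_of_eq ?_) (hl.trans hst)
    congr 1
    refine List.map_congr_left fun a _ => ?_
    exact qn_comb g a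

/-- one-parameter curves -/
lemma joined_exp (g : LeftInvMetric G m) {x : Mat N} (hx : x ∈ Gs G) (a : EuclideanSpace ℝ (Fin m))
    (ha : comb g a ∈ LieAlg G) : Joined g x (x * NormedSpace.exp (comb g a)) ‖a‖ := by
  have h := Joined.curve (g := g) (fun t : ℝ => x * NormedSpace.exp (t • comb g a)) (fun _ => a)
    continuous_const (fun t _ => by
      obtain ⟨u, hu, rfl⟩ := hx
      obtain ⟨v, hv, hv'⟩ := ha t
      exact ⟨u * v, G.mul_mem hu hv, by rw [← hv']; rfl⟩) (fun t _ => by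
      have h1 : HasDerivAt (fun u : ℝ => NormedSpace.exp (u • comb g a))
          (NormedSpace.exp (t • comb g a) * comb g a) t := hasDerivAt_exp_smul (comb g a) t
      have h2 := h1.const_mul x
      rw [← mul_assoc] at h2
      exact h2)
  simp only [zero_smul, one_smul, intervalIntegral.integral_const, sub_zero, smul_eq_mul, one_mul] at h
  have e : x * NormedSpace.exp (0 : Mat N) = x := by
    have h0 : NormedSpace.exp (0 : Mat N) = 1 := exp_zero' (𝔸 := Mat N)
    rw [h0, mul_one]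
  rw [e] at h
  exact h

lemma joined_of_BL (g : LeftInvMetric G m) {L : Submodule ℝ (Mat N)}
    (hL : (L : Set (Mat N)) = LieAlg G) (hc : IsClosed (G : Set (unitaryGroup (Fin N) ℂ))) {x y : Mat N}
    (hx : x ∈ Gs G) (hy : y ∈ Gs G) {t : ℝ} (h : star x * y ∈ BL L (qn g) t) :
    ∃ ℓ ≤ t, 0 ≤ ℓ ∧ Joined g x y ℓ := by
  have hG := isG hc hL
  obtain ⟨l, hl, hlp, hlt⟩ := h
  have key : ∀ (l : List (Mat N)), (∀ X ∈ l, X ∈ L) → ∀ x ∈ Gs G,
      Joined g x (x * (l.map NormedSpace.exp).prod) (l.map (qn g)).sum := by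
    intro l
    induction l with
    | nil =>
      intro _ x hx
      have h1 := joined_exp g hx 0 (by
        rw [map_zero, ← hL]
        exact L.zero_mem)
      rw [map_zero, norm_zero] at h1
      have h0 : NormedSpace.exp (0 : Mat N) = 1 := exp_zero' (𝔸 := Mat N)
      rw [h0] at h1
      simpa using h1
    | cons X l ih =>
      intro hl x hx
      have hX := hl X (by simp)
      have hXL : X ∈ LieAlg G := by rw [← hL]; exact hX
      have h1 := joined_exp g hx (crd g X) (by rw [comb_crd g hL hX]; exact hXL)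
      rw [comb_crd g hL hX] at h1
      have h2 := ih (fun Y hY => hl Y (by simp [hY])) (x * NormedSpace.exp X)
        (hG.mul _ hx _ (hG.exp_mem hX))
      simp only [List.map_cons, List.prod_cons, List.sum_cons]
      rw [← mul_assoc]
      exact h1.trans h2
  refine ⟨(l.map (qn g)).sum, hlt, List.sum_nonneg ?_, ?_⟩
  · intro z hz
    obtain ⟨X, _, rfl⟩ := List.mem_map.1 hz
    exact norm_nonneg _
  · have h1 := key l hl x hx
    have hlp' : (l.map NormedSpace.exp).prod = star x * y := hlp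
    rw [hlp', ← mul_assoc, hG.ms _ hx, one_mul] at h1
    exact h1

lemma joined_nonneg (g : LeftInvMetric G m) {x y : Mat N} {ℓ : ℝ} (h : Joined g x y ℓ) : 0 ≤ ℓ := by
  induction h with
  | curve c v hv hG hc => exact intervalIntegral.integral_nonneg zero_le_one fun _ _ => norm_nonneg _
  | trans _ _ h1 h2 => exact add_nonneg h1 h2

/-- dense balls or small eigenvalue -/
lemma dense_or (hTS : S_TS) (hc : IsClosed (G : Set (unitaryGroup (Fin N) ℂ)))
    (hcn : IsConnected (G : Set (unitaryGroup (Fin N) ℂ))) {L : Submodule ℝ (Mat N)}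
    (hL : (L : Set (Mat N)) = LieAlg G) {ε : ℝ} (hε : 0 < ε) :
    ∃ v > 0, ∀ (m : ℕ) (g : LeftInvMetric G m) (t : ℝ), 0 < t →
      (∀ x ∈ Gs G, ∃ s ∈ BL L (qn g) t, ‖s - x‖ < ε) ∨
      ∃ lam : ℝ, 0 < lam ∧ lam * (v * t ^ 2) ≤ 4 * m ∧ IsEigenvalue g lam := by
  letI : MeasurableSpace G := borel G
  haveI : BorelSpace G := ⟨rfl⟩
  obtain ⟨μ, hμ1, hμ2, hμ3⟩ := Pool.Agent.W345.EGT.exists_measure (G := G) hc
  have hcoe : Continuous (fun u : G => ((u : unitaryGroup (Fin N) ℂ) : Mat N)) :=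
    continuous_subtype_val.comp continuous_subtype_val
  have hG := isG hc hL
  set U : Set G := {u : G | ‖((u : unitaryGroup (Fin N) ℂ) : Mat N) - 1‖ ≤ ε / 3} with hU
  have hUcl : IsClosed U := by
    have h1 : Continuous fun u : G => ‖((u : unitaryGroup (Fin N) ℂ) : Mat N) - 1‖ :=
      (continuous_norm (E := Mat N)).comp (hcoe.sub continuous_const)
    exact isClosed_le h1 continuous_const
  have hUpos : 0 < μ.real U := by
    have h1 : IsOpen {u : G | ‖((u : unitaryGroup (Fin N) ℂ) : Mat N) - 1‖ < ε / 3} := by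
      have h1 : Continuous fun u : G => ‖((u : unitaryGroup (Fin N) ℂ) : Mat N) - 1‖ :=
        (continuous_norm (E := Mat N)).comp (hcoe.sub continuous_const)
      exact isOpen_lt h1 continuous_const
    have h2 : 0 < μ {u : G | ‖((u : unitaryGroup (Fin N) ℂ) : Mat N) - 1‖ < ε / 3} := by
      refine h1.measure_pos μ ⟨1, ?_⟩
      simp only [Set.mem_setOf_eq, OneMemClass.coe_one, sub_self, norm_zero]
      positivity
    have h3 : 0 < μ U := h2.trans_le (measure_mono fun u hu => by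
      have hu' : ‖((u : unitaryGroup (Fin N) ℂ) : Mat N) - 1‖ < ε / 3 := hu
      exact hu'.le)
    rw [Measure.real, ENNReal.toReal_pos_iff]
    exact ⟨h3, measure_lt_top _ _⟩
  refine ⟨μ.real U, hUpos, fun m g t ht => ?_⟩
  by_contra hcon
  push Not at hcon
  obtain ⟨⟨x, hx, hxs⟩, hno⟩ := hcon
  obtain ⟨x₀, hx₀, rfl⟩ := hx
  set U' : Set G := (fun z : G => z * (⟨x₀, hx₀⟩ : G)⁻¹) ⁻¹' U with hU'
  have hU'm : μ.real U' = μ.real U := by
    simp only [Measure.real]
    rw [hU', measure_preimage_mul_right]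
  obtain ⟨lam, h1, h2, h3⟩ := hTS N m G hc hcn g μ U U' hUcl.measurableSet
    ((measurable_mul_const _) hUcl.measurableSet) t (μ.real U) ht hUpos le_rfl hU'm.ge (by
      intro u hu u' hu' s hs hball
      have h4 := hxs _ (ball_sub_BL g hL hs.le hball)
      have hu1 : ‖((u : unitaryGroup (Fin N) ℂ) : Mat N) - 1‖ ≤ ε / 3 := hu
      have hu2 : ‖((u' * (⟨x₀, hx₀⟩ : G)⁻¹ : G) : unitaryGroup (Fin N) ℂ).1 - 1‖ ≤ ε / 3 := hu'
      have e1 : (((u' * (⟨x₀, hx₀⟩ : G)⁻¹ : G) : unitaryGroup (Fin N) ℂ) : Mat N) =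
          ((u' : unitaryGroup (Fin N) ℂ) : Mat N) * star (x₀ : Mat N) := rfl
      have e2 : (((u⁻¹ * u' : G) : unitaryGroup (Fin N) ℂ) : Mat N) =
          star ((u : unitaryGroup (Fin N) ℂ) : Mat N) * ((u' : unitaryGroup (Fin N) ℂ) : Mat N) := rfl
      rw [e1] at hu2
      rw [e2] at h4
      have huG : ((u : unitaryGroup (Fin N) ℂ) : Mat N) ∈ Gs G := ⟨_, u.2, rfl⟩
      have hx₀G : (x₀ : Mat N) ∈ Gs G := ⟨_, hx₀, rfl⟩
      set A := ((u : unitaryGroup (Fin N) ℂ) : Mat N) with hA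
      set B := ((u' : unitaryGroup (Fin N) ℂ) : Mat N) with hB
      have h5 : ‖star A * B - (x₀ : Mat N)‖ = ‖B - A * (x₀ : Mat N)‖ := by
        rw [← hG.isom A huG, mul_sub, ← mul_assoc, hG.ms _ huG, one_mul]
      have h6 : ‖B - (x₀ : Mat N)‖ ≤ ε / 3 := by
        have : B * star (x₀ : Mat N) - 1 = (B - (x₀ : Mat N)) * star (x₀ : Mat N) := by
          rw [sub_mul, hG.ms _ hx₀G]
        rw [this, hG.isom' _ (hG.st _ hx₀G)] at hu2
        exact hu2
      have h7 : ‖(x₀ : Mat N) - A * (x₀ : Mat N)‖ ≤ ε / 3 := by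
        have : (x₀ : Mat N) - A * (x₀ : Mat N) = (1 - A) * (x₀ : Mat N) := by rw [sub_mul, one_mul]
        rw [this, hG.isom' _ hx₀G, norm_sub_rev]
        exact hu1
      have h8 : ‖B - A * (x₀ : Mat N)‖ ≤ ‖B - (x₀ : Mat N)‖ + ‖(x₀ : Mat N) - A * (x₀ : Mat N)‖ := by
        have : B - A * (x₀ : Mat N) = (B - (x₀ : Mat N)) + ((x₀ : Mat N) - A * (x₀ : Mat N)) := by abel
        rw [this]; exact norm_add_le _ _
      rw [h5] at h4
      linarith)
  exact hno lam h1 h2 h3

end Pool.Agent.W544.EG
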