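import Mathlib
import Pool.Agent.W544.EG.Final

/-!
# The EGS conjecture from the statements `S_R` and `S_D`
-/

open Matrix Filter Topology MeasureTheory
open scoped Matrix.Norms.Frobenius ContDiff

namespace Pool.Agent.W544.EG

set_option linter.unusedSectionVars false
set_option linter.style.haveILetI false

variable {N m : ℕ} {G : Subgroup (unitaryGroup (Fin N) ℂ)}

/-- elements of the commutator subgroup lie in a bounded length ball -/
lemma comm_BL (hc : IsClosed (G : Set (unitaryGroup (Fin N) ℂ))) {L : Submodule ℝ (Mat N)}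
    (hL : (L : Set (Mat N)) = LieAlg G) {q : Mat N → ℝ} {a : ℝ} (ha : 0 ≤ a)
    (h : ∀ x ∈ Gs G, ∀ y ∈ Gs G, x * y * star x * star y ∈ BL L q a) {M : ℕ}
    {d : unitaryGroup (Fin N) ℂ}
    (hd : ∃ l : List (unitaryGroup (Fin N) ℂ × unitaryGroup (Fin N) ℂ),
        l.length ≤ M ∧ (∀ q ∈ l, q.1 ∈ G ∧ q.2 ∈ G) ∧
          (l.map fun q => q.1 * q.2 * q.1⁻¹ * q.2⁻¹).prod = d) :
    (d : Mat N) ∈ BL L q (M * a) := by
  obtain ⟨l, hl, hlG, rfl⟩ := hd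
  have h1 : (((l.map fun q => q.1 * q.2 * q.1⁻¹ * q.2⁻¹).prod : unitaryGroup (Fin N) ℂ) : Mat N) =
      (l.map fun q => (q.1 : Mat N) * q.2 * star (q.1 : Mat N) * star (q.2 : Mat N)).prod := by
    clear hl hlG
    induction l with
    | nil => rfl
    | cons q l ih =>
      simp only [List.map_cons, List.prod_cons]
      rw [← ih]
      rfl
  rw [h1]
  have h2 := BL.list_prod (L := L) (q := q) ha
    (l.map fun q => (q.1 : Mat N) * q.2 * star (q.1 : Mat N) * star (q.2 : Mat N)) (fun x hx => by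
      obtain ⟨p, hp, rfl⟩ := List.mem_map.1 hx
      exact h _ ⟨_, (hlG p hp).1, rfl⟩ _ ⟨_, (hlG p hp).2, rfl⟩)
  rw [List.length_map] at h2
  refine BL.mono ?_ h2
  have : (l.length : ℝ) ≤ M := by exact_mod_cast hl
  gcongr

/-- Main alternative. -/
theorem alternative (hR : S_R) (hD : S_D) (hc : IsClosed (G : Set (unitaryGroup (Fin N) ℂ)))
    (hcn : IsConnected (G : Set (unitaryGroup (Fin N) ℂ))) {L : Submodule ℝ (Mat N)}
    (hL : (L : Set (Mat N)) = LieAlg G) :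
    ∃ C κ : ℝ, 0 ≤ C ∧ 1 ≤ κ ∧ ∀ (m : ℕ) (g : LeftInvMetric G m) (t : ℝ), 0 < t →
      (∀ x ∈ Gs G, x ∈ BL L (qn g) (κ * t)) ∨
      ∃ lam : ℝ, 0 < lam ∧ lam * t ^ 2 ≤ C ∧ IsEigenvalue g lam := by
  have hG := isG hc hL
  have hconn := Gs_conn hcn
  have hTS := Pool.Agent.W641.EGS.egs_TS hR
  obtain ⟨K, hK, ε, hε, hcomm⟩ := commutators_mem hG hconn (cr (G := G) (L := L))
  obtain ⟨v, hv, hdense⟩ := dense_or hTS hc hcn hL hε
  obtain ⟨M, p, hp1, hp2, hDcl, hw⟩ := hD N G hc hcn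
  obtain ⟨CT, hCT⟩ := Pool.Agent.W345.EGT.S_T_of_S_TS hTS N G hc hcn p hp1 hp2 hDcl
  set k := Module.finrank ℝ (Mat N) with hk
  refine ⟨max (4 * k / v) CT, 1 + M * K, le_max_of_le_left (by positivity), by
    have : 0 ≤ M * K := by positivity
    linarith, fun m g t ht => ?_⟩
  have hmk : (m : ℝ) ≤ k := by
    have := g.indep.fintype_card_le_finrank
    have h2 : m ≤ k := by simpa using this
    exact_mod_cast h2
  rcases hdense m g t ht with hden | ⟨lam, h1, h2, h3⟩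
  swap
  · right
    refine ⟨lam, h1, le_max_of_le_left ?_, h3⟩
    rw [le_div_iff₀ hv]
    calc lam * t ^ 2 * v = lam * (v * t ^ 2) := by ring
      _ ≤ 4 * (m : ℝ) := h2
      _ ≤ 4 * (k : ℝ) := by linarith
  by_cases hcov : ∃ x ∈ G, ∀ a : EuclideanSpace ℝ (Fin m), ‖a‖ ≤ t → ∀ d ∈ ⁅G, G⁆,
        ((x : unitaryGroup (Fin N) ℂ) : Mat N) ≠
          NormedSpace.exp (p (∑ i, a i • g.X i)) * (d : unitaryGroup (Fin N) ℂ)
  · right
    obtain ⟨lam, h1, h2, h3⟩ := hCT m g t ht hcov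
    exact ⟨lam, h1, le_max_of_le_right h2, h3⟩
  left
  push Not at hcov
  have hq := isLen g L
  have hDB : ∀ d ∈ ⁅G, G⁆, ((d : unitaryGroup (Fin N) ℂ) : Mat N) ∈ BL L (qn g) (M * (K * t)) :=
    fun d hd => comm_BL hc hL (by positivity) (hcomm (qn g) hq t ht.le hden) (hw d hd)
  have hp : Pool.Agent.W345.EGT.Proj G p := ⟨fun X hX => (hp1 X hX).1, fun X hX => (hp1 X hX).2, hp2⟩
  rintro _ ⟨x, hx, rfl⟩
  obtain ⟨a, ha, d, hd, hxe⟩ := hcov x hx
  obtain ⟨d', hd', hde⟩ := Pool.Agent.W345.EGT.exp_eq hp g a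
  have hd'' : ((d'⁻¹ * d : unitaryGroup (Fin N) ℂ)) ∈ ⁅G, G⁆ := mul_mem (inv_mem hd') hd
  have e1 : ((x : unitaryGroup (Fin N) ℂ) : Mat N) =
      NormedSpace.exp (∑ i, a i • g.X i) * ((d'⁻¹ * d : unitaryGroup (Fin N) ℂ) : Mat N) := by
    rw [hxe, hde]
    have e2 : ((d'⁻¹ * d : unitaryGroup (Fin N) ℂ) : Mat N) = star (d' : Mat N) * (d : Mat N) := rfl
    rw [e2]
    have h3 := unit_ms d'
    show _ = Pool.Agent.W345.EGT.th p g a * (d' : Mat N) * (star (d' : Mat N) * (d : Mat N))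
    calc NormedSpace.exp (p (∑ i, a i • g.X i)) * (d : Mat N)
        = Pool.Agent.W345.EGT.th p g a * ((d' : Mat N) * star (d' : Mat N)) * (d : Mat N) := by
          rw [h3, mul_one]; rfl
      _ = _ := by noncomm_ring
  rw [e1]
  have h4 : NormedSpace.exp (∑ i, a i • g.X i) ∈ BL L (qn g) t := by
    refine BL.exp ((mem_lie_iff g hL).2 ⟨a, rfl⟩) ?_
    have : qn g (∑ i, a i • g.X i) = ‖a‖ := qn_comb g a
    rw [this]
    exact ha
  refine BL.mono (le_of_eq ?_) (BL.mul h4 (hDB _ hd''))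
  ring

lemma lin_bound {E F : Type} [NormedAddCommGroup E] [NormedSpace ℝ E] [FiniteDimensional ℝ E]
    [NormedAddCommGroup F] [NormedSpace ℝ F] (f : E →ₗ[ℝ] F) :
    ∃ C : ℝ, 0 ≤ C ∧ ∀ x, ‖f x‖ ≤ C * ‖x‖ :=
  ⟨‖LinearMap.toContinuousLinearMap f‖, norm_nonneg _,
    fun x => (LinearMap.toContinuousLinearMap f).le_opNorm x⟩

/-- everything is in some ball -/
lemma exists_big (hc : IsClosed (G : Set (unitaryGroup (Fin N) ℂ)))
    (hcn : IsConnected (G : Set (unitaryGroup (Fin N) ℂ))) {L : Submodule ℝ (Mat N)}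
    (hL : (L : Set (Mat N)) = LieAlg G) (g : LeftInvMetric G m) :
    ∃ r : ℝ, ∀ x ∈ Gs G, x ∈ BL L (qn g) r := by
  have hG := isG hc hL
  obtain ⟨n, hn⟩ := generate hG (Gs_conn hcn) one_pos
  obtain ⟨S, hS0, hS⟩ := lin_bound (crd g)
  refine ⟨n * S, fun x hx => ?_⟩
  obtain ⟨l, hl1, hl2, rfl⟩ := hn x hx
  refine ⟨l, fun X hX => (hl2 X hX).1, rfl, ?_⟩
  have h1 : (l.map (qn g)).sum ≤ l.length * S := by
    have h2 : (l.map (qn g)).sum ≤ (l.map fun _ => S).sum := by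
      refine List.sum_le_sum fun X hX => ?_
      have h3 := hS X
      have h4 := (hl2 X hX).2
      have h5 : qn g X = ‖crd g X‖ := rfl
      rw [h5]
      nlinarith
    refine h2.trans (le_of_eq ?_)
    rw [List.map_const', List.sum_replicate, nsmul_eq_mul]
  refine h1.trans ?_
  have : (l.length : ℝ) ≤ n := by exact_mod_cast hl1
  gcongr

/-- small balls are not everything -/
lemma exists_small (hc : IsClosed (G : Set (unitaryGroup (Fin N) ℂ))) {L : Submodule ℝ (Mat N)}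
    (hL : (L : Set (Mat N)) = LieAlg G) (g : LeftInvMetric G m) {x : Mat N} (hx1 : x ≠ 1) :
    ∃ r > 0, x ∉ BL L (qn g) r := by
  have hG := isG hc hL
  obtain ⟨T, hT0, hT⟩ := lin_bound (comb g)
  have hpos : 0 < ‖x - 1‖ := norm_pos_iff.2 (sub_ne_zero.2 hx1)
  refine ⟨‖x - 1‖ / (2 * (T + 1)), by positivity, ?_⟩
  rintro ⟨l, hl1, hx, hl2⟩
  have h1 : ‖x - 1‖ ≤ (l.map fun X => ‖NormedSpace.exp X - 1‖).sum := by
    rw [← hx]
    exact norm_list_prod hG _ l (fun X hX => hG.exp_mem (hl1 X hX))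
  have h2 : (l.map fun X => ‖NormedSpace.exp X - 1‖).sum ≤ (T + 1) * (l.map (qn g)).sum := by
    rw [← List.sum_map_mul_left]
    refine List.sum_le_sum fun X hX => ?_
    have h3 := hG.norm_exp_sub_one (hl1 X hX)
    have h4 := hT (crd g X)
    have h5 : comb g (crd g X) = X := comb_crd g hL (hl1 X hX)
    rw [h5] at h4
    have h6 : qn g X = ‖crd g X‖ := rfl
    rw [h6]
    have h7 := norm_nonneg (crd g X)
    exact h3.trans (by nlinarith)
  have h3 : (T + 1) * (l.map (qn g)).sum ≤ ‖x - 1‖ / 2 := by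
    have h4 : 0 < T + 1 := by positivity
    calc (T + 1) * (l.map (qn g)).sum
        ≤ (T + 1) * (‖x - 1‖ / (2 * (T + 1))) := by gcongr
      _ = ‖x - 1‖ / 2 := by field_simp
  linarith [h1.trans (h2.trans h3)]

/-- the strong form -/
theorem strong (hR : S_R) (hD : S_D) (hc : IsClosed (G : Set (unitaryGroup (Fin N) ℂ)))
    (hcn : IsConnected (G : Set (unitaryGroup (Fin N) ℂ))) :
    ∃ C : ℝ, 0 ≤ C ∧ ∀ (m : ℕ) (g : LeftInvMetric G m), G ≠ ⊥ →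
      ∃ lam : ℝ, 0 < lam ∧ IsEigenvalue g lam ∧ ∃ r : ℝ, 0 ≤ r ∧ lam * r ^ 2 ≤ C ∧
        ∀ x ∈ G, ∀ y ∈ G, ∃ ℓ ≤ r, 0 ≤ ℓ ∧
          Joined g (x : unitaryGroup (Fin N) ℂ) (y : unitaryGroup (Fin N) ℂ) ℓ := by
  by_cases hne : ∃ m : ℕ, Nonempty (LeftInvMetric G m)
  swap
  · exact ⟨0, le_rfl, fun m g => absurd ⟨m, ⟨g⟩⟩ hne⟩
  obtain ⟨m₀, ⟨g₀⟩⟩ := hne
  obtain ⟨L, hL⟩ : ∃ L : Submodule ℝ (Mat N), (L : Set (Mat N)) = LieAlg G := ⟨_, g₀.span_eq⟩
  have hG := isG hc hL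
  obtain ⟨C, κ, hC, hκ, halt⟩ := alternative hR hD hc hcn hL
  refine ⟨4 * κ ^ 2 * C, by positivity, fun m g hnt => ?_⟩
  obtain ⟨x₀, hx₀, hx₀1⟩ : ∃ x ∈ G, x ≠ 1 := by
    by_contra h
    push Not at h
    exact hnt (by rw [Subgroup.eq_bot_iff_forall]; exact h)
  have hx₀' : (x₀ : Mat N) ≠ 1 := fun h => hx₀1 (Subtype.ext h)
  obtain ⟨r₀, hr₀, hr₀x⟩ := exists_small hc hL g hx₀'
  obtain ⟨r₁, hr₁⟩ := exists_big hc hcn hL g
  have hex : ∃ k : ℕ, ∀ x ∈ Gs G, x ∈ BL L (qn g) (r₀ * 2 ^ k) := by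
    obtain ⟨k, hk⟩ := pow_unbounded_of_one_lt (r₁ / r₀) (one_lt_two)
    refine ⟨k, fun x hx => BL.mono ?_ (hr₁ x hx)⟩
    rw [div_lt_iff₀ hr₀] at hk
    linarith
  classical
  obtain ⟨k, hk1, hk2⟩ : ∃ k : ℕ, (∀ x ∈ Gs G, x ∈ BL L (qn g) (r₀ * 2 ^ (k + 1))) ∧
      ¬ ∀ x ∈ Gs G, x ∈ BL L (qn g) (r₀ * 2 ^ k) := by
    have hne : Nat.find hex ≠ 0 := by
      intro h0
      have := Nat.find_spec hex
      rw [h0, pow_zero, mul_one] at this
      exact hr₀x (this _ ⟨x₀, hx₀, rfl⟩)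
    obtain ⟨k, hk⟩ := Nat.exists_eq_succ_of_ne_zero hne
    refine ⟨k, ?_, ?_⟩
    · have := Nat.find_spec hex
      rwa [hk] at this
    · exact Nat.find_min hex (by omega)
  have hκ0 : 0 < κ := by linarith
  set t := r₀ * 2 ^ k / κ with ht
  have htpos : 0 < t := by positivity
  have hκt : κ * t = r₀ * 2 ^ k := by rw [ht]; field_simp
  rcases halt m g t htpos with h | ⟨lam, h1, h2, h3⟩
  · rw [hκt] at h
    exact absurd h hk2
  refine ⟨lam, h1, h3, r₀ * 2 ^ (k + 1), by positivity, ?_, ?_⟩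
  · have e : r₀ * 2 ^ (k + 1) = 2 * (κ * t) := by rw [hκt, pow_succ]; ring
    rw [e]
    calc lam * (2 * (κ * t)) ^ 2 = 4 * κ ^ 2 * (lam * t ^ 2) := by ring
      _ ≤ 4 * κ ^ 2 * C := by gcongr
  · intro x hx y hy
    have hx' : (x : Mat N) ∈ Gs G := ⟨x, hx, rfl⟩
    have hy' : (y : Mat N) ∈ Gs G := ⟨y, hy, rfl⟩
    exact joined_of_BL g hL hc hx' hy' (hk1 _ (hG.mul _ (hG.st _ hx') _ hy'))

lemma dist_le (g : LeftInvMetric G m) {x y : Mat N} {r : ℝ}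
    (h : ∃ ℓ ≤ r, 0 ≤ ℓ ∧ Joined g x y ℓ) : 0 ≤ dist g x y ∧ dist g x y ≤ r := by
  obtain ⟨ℓ, h1, _, h2⟩ := h
  refine ⟨Real.sInf_nonneg fun ℓ' hℓ' => joined_nonneg g hℓ', ?_⟩
  exact (csInf_le ⟨0, fun ℓ' hℓ' => joined_nonneg g hℓ'⟩ h2).trans h1

/-- **The EGS conjecture** (conditional on `S_R`, `S_D`) -/
theorem egs (hR : S_R) (hD : S_D) (hc : IsClosed (G : Set (unitaryGroup (Fin N) ℂ)))
    (hcn : IsConnected (G : Set (unitaryGroup (Fin N) ℂ))) :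
    ∃ C : ℝ, ∀ (m : ℕ) (g : LeftInvMetric G m), lambda1 g * diam g ^ 2 ≤ C ∧
      (G ≠ ⊥ → ∃ lam : ℝ, 0 < lam ∧ IsEigenvalue g lam ∧ ∃ r : ℝ, 0 ≤ r ∧ lam * r ^ 2 ≤ C ∧
        ∀ x ∈ G, ∀ y ∈ G, ∃ ℓ ≤ r, 0 ≤ ℓ ∧
          Joined g (x : unitaryGroup (Fin N) ℂ) (y : unitaryGroup (Fin N) ℂ) ℓ) := by
  obtain ⟨C, hC, h⟩ := strong hR hD hc hcn
  refine ⟨C, fun m g => ⟨?_, h m g⟩⟩
  by_cases hnt : G = ⊥
  · have hd : diam g = 0 := by
      unfold diam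
      have hset : {d | ∃ x ∈ G, ∃ y ∈ G, d = dist g (x : unitaryGroup (Fin N) ℂ)
          (y : unitaryGroup (Fin N) ℂ)} = {0} := by
        have hone : dist g ((1 : unitaryGroup (Fin N) ℂ) : Mat N) ((1 : unitaryGroup (Fin N) ℂ) : Mat N) = 0 := by
          have hz : (0 : Mat N) ∈ LieAlg G := by rw [← g.span_eq]; exact Submodule.zero_mem _
          have h1 := joined_exp g (x := (1 : Mat N)) ⟨1, G.one_mem, rfl⟩ 0 (by
            rw [map_zero]
            exact hz)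
          have h0 : NormedSpace.exp (0 : Mat N) = 1 := exp_zero' (𝔸 := Mat N)
          rw [map_zero, h0, norm_zero, mul_one] at h1
          have h2 := dist_le g ⟨0, le_rfl, le_rfl, h1⟩
          exact le_antisymm h2.2 h2.1
        ext d
        simp only [Set.mem_setOf_eq, Set.mem_singleton_iff]
        constructor
        · rintro ⟨x, hx, y, hy, rfl⟩
          rw [hnt, Subgroup.mem_bot] at hx hy
          rw [hx, hy]
          exact hone
        · rintro rfl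
          exact ⟨1, G.one_mem, 1, G.one_mem, hone.symm⟩
      rw [hset, csSup_singleton]
    rw [hd]
    simpa using hC
  · obtain ⟨lam, h1, h2, r, h3, h4, h5⟩ := h m g hnt
    have hl0 : 0 ≤ lambda1 g := Real.sInf_nonneg fun l hl => hl.1.le
    have hl1 : lambda1 g ≤ lam := csInf_le ⟨0, fun l hl => hl.1.le⟩ ⟨h1, h2⟩
    have hd0 : 0 ≤ diam g := by
      refine Real.sSup_nonneg ?_
      rintro d ⟨x, hx, y, hy, rfl⟩
      exact (dist_le g (h5 x hx y hy)).1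
    have hd1 : diam g ≤ r := by
      refine csSup_le ⟨_, 1, G.one_mem, 1, G.one_mem, rfl⟩ ?_
      rintro d ⟨x, hx, y, hy, rfl⟩
      exact (dist_le g (h5 x hx y hy)).2
    calc lambda1 g * diam g ^ 2 ≤ lam * r ^ 2 := by gcongr
      _ ≤ C := h4

end Pool.Agent.W544.EG
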