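import Mathlib
import Pool.Agent.W544.EG.Final2
import Pool.Agent.Helper472.Lat_CST1

/-!
# Left-invariant metrics exist (the Lie algebra is a real vector space)
-/

open Matrix
open scoped Matrix.Norms.Frobenius ContDiff

namespace Pool.Agent.W544.EG

variable {N : ℕ} {G : Subgroup (unitaryGroup (Fin N) ℂ)}

theorem exists_metric (hc : IsClosed (G : Set (unitaryGroup (Fin N) ℂ))) :
    ∃ m : ℕ, Nonempty (LeftInvMetric G m) := by
  obtain ⟨L, hL⟩ : ∃ L : Submodule ℝ (Mat N), (L : Set (Mat N)) = LieAlg G := by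
    refine ⟨{ carrier := LieAlg G, add_mem' := ?_, zero_mem' := ?_, smul_mem' := ?_ }, rfl⟩
    · intro X Y hX hY
      exact Pool.Agent.W345.EGT.mem_of_lat (Pool.LatH472.CST1 (Fin N) G hc X
        (Pool.Agent.W345.EGT.mem_lat hX) Y (Pool.Agent.W345.EGT.mem_lat hY)).1
    · intro t
      refine ⟨1, G.one_mem, ?_⟩
      rw [smul_zero]
      have h0 : NormedSpace.exp (0 : Mat N) = 1 := exp_zero' (𝔸 := Mat N)
      rw [h0]
      rfl
    · intro c X hX t
      obtain ⟨u, hu, hue⟩ := hX (t * c)
      exact ⟨u, hu, by rw [hue, mul_smul]⟩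
  set b := Module.finBasis ℝ L with hb
  refine ⟨Module.finrank ℝ L, ⟨{ X := fun i => (b i : Mat N), indep := ?_, span_eq := ?_ }⟩⟩
  · exact b.linearIndependent.map' L.subtype L.ker_subtype
  · rw [← hL]
    have h1 : Set.range (fun i => (b i : Mat N)) = L.subtype '' Set.range b := by
      rw [← Set.range_comp]; rfl
    rw [h1, Submodule.span_image, b.span_eq, Submodule.map_top, Submodule.range_subtype]

end Pool.Agent.W544.EG
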